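import Mathlib

/-!
# Definitions: lattice path matroids and the logic `MS₀`
-/

set_option autoImplicit false

namespace Pool.Agent.K4H81.LPM

universe u

variable {α : Type u}

/-- For a lattice path given by its steps (`true` = North, `false` = East), the number of North
steps among its first `k` steps, that is, its height after `k` steps. -/
def height {n : ℕ} (R : Fin n → Bool) (k : ℕ) : ℕ :=
  (Finset.univ.filter fun i : Fin n => (i : ℕ) < k ∧ R i = true).card

/-- `M` is a lattice path matroid: for some `m, r` there are lattice paths `P, Q` from `(0, 0)` to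
`(m, r)`, with `P` never above `Q`, and a bijection `e` of the indices of the steps with the ground
set of `M` that takes the sets of North steps of the lattice paths between `P` and `Q` to the bases
of `M`. -/
def IsLatticePathMatroid (M : Matroid α) : Prop :=
  ∃ (m r : ℕ) (P Q : Fin (m + r) → Bool) (e : Fin (m + r) ≃ M.E),
    height P (m + r) = r ∧ height Q (m + r) = r ∧ (∀ k, height P k ≤ height Q k) ∧
    ∀ B : Set α, M.IsBase B ↔
      ∃ R : Fin (m + r) → Bool, height R (m + r) = r ∧
        (∀ k, height P k ≤ height R k ∧ height R k ≤ height Q k) ∧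
        B = {x | ∃ i, R i = true ∧ (e i : α) = x}

/-- The formulas of the logic `MS₀`, with variables `X 0, X 1, X 2, …` for subsets of the ground set. -/
inductive Formula : Type
  /-- the atomic formula `Ind (X x)` -/
  | ind (x : ℕ) : Formula
  /-- the atomic formula `X x ⊆ X y` -/
  | sub (x y : ℕ) : Formula
  | neg (φ : Formula) : Formula
  | conj (φ ψ : Formula) : Formula
  | disj (φ ψ : Formula) : Formula
  | imp (φ ψ : Formula) : Formula
  /-- `∃ X x, φ` -/
  | ex (x : ℕ) (φ : Formula) : Formula
  /-- `∀ X x, φ` -/
  | all (x : ℕ) (φ : Formula) : Formula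

/-- The (indices of the) variables that occur free in a formula. -/
def Formula.free : Formula → Finset ℕ
  | .ind x => {x}
  | .sub x y => {x, y}
  | .neg φ => φ.free
  | .conj φ ψ => φ.free ∪ ψ.free
  | .disj φ ψ => φ.free ∪ ψ.free
  | .imp φ ψ => φ.free ∪ ψ.free
  | .ex x φ => φ.free.erase x
  | .all x φ => φ.free.erase x

/-- A sentence is a formula with no free variables. -/
def Formula.IsSentence (φ : Formula) : Prop := φ.free = ∅

/-- The truth of a formula in the matroid `M`, when the variable `X x` has the value `v x`.
The quantifiers range over the subsets of the ground set. -/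
def Sat (M : Matroid α) : (ℕ → Set α) → Formula → Prop
  | v, .ind x => M.Indep (v x)
  | v, .sub x y => v x ⊆ v y
  | v, .neg φ => ¬ Sat M v φ
  | v, .conj φ ψ => Sat M v φ ∧ Sat M v ψ
  | v, .disj φ ψ => Sat M v φ ∨ Sat M v ψ
  | v, .imp φ ψ => Sat M v φ → Sat M v ψ
  | v, .ex x φ => ∃ X ⊆ M.E, Sat M (Function.update v x X) φ
  | v, .all x φ => ∀ X ⊆ M.E, Sat M (Function.update v x X) φ

end Pool.Agent.K4H81.LPM
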