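import Pool.Agent.K4H81.LPM.Defs

/-!
# Lattice path matroids are definable in `MS₀`

There is a sentence of the monadic second-order logic `MS₀` of matroids that holds exactly in the
lattice path matroids.

A finite matroid is a lattice path matroid if and only if its ground set has a linear order with
`r (E_{≤ max C}) + r (E_{≥ min C}) ≤ r (E) + r (C)` for every circuit `C`, and this can be tested on the
connected components. In a connected lattice path matroid `K`, the closures of the sets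
`K_{≤ max C}` are connected flats that contain the first element, and all the connected flats that
contain the first element are initial segments; the same holds for the final segments. So the
sentence says that every component `K` has subsets `A` and `Z` such that the connected flats of `K`
containing `A` are a chain, so are those containing `Z`, a flat of the first chain and a flat
of the second that meet cover `K`, and every circuit `C` in `K` lies in a flat `F` of the first chain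
and a flat `G` of the second with `r (F) + r (G) ≤ r (K) + r (C)`; the last is expressed by bases `I` of
`F` and `J` of `G` with independent union and with intersection in `C`.
-/

set_option autoImplicit false
set_option linter.unusedSectionVars false
set_option linter.unusedVariables false

namespace Pool.Agent.K4H81.LPM

open Set

universe u

variable {α : Type u}

/-! ## The combinatorics -/

section Core


/-- rank as a natural number -/
noncomputable def rk (M : Matroid α) (X : Set α) : ℕ := (M.eRk X).toNat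

variable {M : Matroid α} [M.Finite] {X Y C I J K F G S : Set α}

theorem cast_rk (M : Matroid α) [M.Finite] (X : Set α) : (rk M X : ℕ∞) = M.eRk X := by
  unfold rk
  rw [ENat.natCast_toNat]
  exact Matroid.eRk_ne_top_iff.2 (M.isRkFinite_set X)

theorem rk_mono (h : X ⊆ Y) : rk M X ≤ rk M Y := by
  have := M.eRk_mono h
  rw [← cast_rk, ← cast_rk] at this
  exact_mod_cast this

theorem rk_submod (X Y : Set α) : rk M (X ∩ Y) + rk M (X ∪ Y) ≤ rk M X + rk M Y := by
  have := M.eRk_inter_add_eRk_union_le X Y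
  simp only [← cast_rk] at this
  exact_mod_cast this

theorem rk_union_le (X Y : Set α) : rk M (X ∪ Y) ≤ rk M X + rk M Y := by
  have := rk_submod (M := M) X Y
  omega

theorem rk_closure (X : Set α) : rk M (M.closure X) = rk M X := by
  unfold rk
  rw [Matroid.eRk_closure_eq]

theorem rk_eq_ncard_of_indep (hI : M.Indep I) : rk M I = I.ncard := by
  unfold rk
  rw [hI.eRk_eq_encard]
  rfl

theorem ncard_le_rk (hI : M.Indep I) (hX : I ⊆ X) : I.ncard ≤ rk M X := by
  rw [← rk_eq_ncard_of_indep hI]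
  exact rk_mono hX

theorem rk_eq_ncard_of_isBasis (hI : M.IsBasis I X) : rk M X = I.ncard := by
  unfold rk
  rw [hI.eRk_eq_encard]
  rfl

theorem rk_circuit (hC : M.IsCircuit C) : rk M C + 1 = C.ncard := by
  have h := hC.eRk_add_one_eq
  rw [← cast_rk] at h
  have hf : C.Finite := M.ground_finite.subset hC.subset_ground
  rw [← hf.cast_ncard_eq] at h
  exact_mod_cast h

theorem fin_of_sub (h : X ⊆ M.E) : X.Finite := M.ground_finite.subset h

/-- no circuit of `M` meets both `X` and `Y` -/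
def NoCross (M : Matroid α) (X Y : Set α) : Prop := ∀ C, M.IsCircuit C → C ⊆ X ∪ Y → C ⊆ X ∨ C ⊆ Y

theorem rk_union_of_noCross (hX : X ⊆ M.E) (hY : Y ⊆ M.E) (hd : Disjoint X Y)
    (h : NoCross M X Y) : rk M (X ∪ Y) = rk M X + rk M Y := by
  obtain ⟨I, hI⟩ := M.exists_isBasis X
  obtain ⟨J, hJ⟩ := M.exists_isBasis Y
  have hIJ : M.Indep (I ∪ J) := by
    by_contra hcon
    have hdep : M.Dep (I ∪ J) := ⟨hcon, union_subset hI.left_subset_ground hJ.left_subset_ground⟩
    obtain ⟨C, hCs, hC⟩ := hdep.exists_isCircuit_subset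
    rcases h C hC (hCs.trans (union_subset_union hI.subset hJ.subset)) with h1 | h1
    · have : C ⊆ I := by
        intro x hx
        rcases hCs hx with h2 | h2
        · exact h2
        · exact absurd (hJ.subset h2) (fun h3 => (disjoint_left.1 hd) (h1 hx) h3)
      exact hC.not_indep (hI.indep.subset this)
    · have : C ⊆ J := by
        intro x hx
        rcases hCs hx with h2 | h2
        · exact absurd (hI.subset h2) (fun h3 => (disjoint_left.1 hd) h3 (h1 hx))
        · exact h2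
      exact hC.not_indep (hJ.indep.subset this)
  have h1 : (I ∪ J).ncard ≤ rk M (X ∪ Y) := ncard_le_rk hIJ (union_subset_union hI.subset hJ.subset)
  have h2 : (I ∪ J).ncard = I.ncard + J.ncard :=
    ncard_union_eq (hd.mono hI.subset hJ.subset) (fin_of_sub hI.left_subset_ground)
      (fin_of_sub hJ.left_subset_ground)
  have h3 := rk_union_le (M := M) X Y
  rw [rk_eq_ncard_of_isBasis hI, rk_eq_ncard_of_isBasis hJ] at h3 ⊢
  omega

theorem noCross_of_rk (hX : X ⊆ M.E) (hY : Y ⊆ M.E)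
    (h : rk M X + rk M Y ≤ rk M (X ∪ Y)) : NoCross M X Y := by
  intro C hC hCs
  by_contra hcon
  obtain ⟨h1, h2⟩ := not_or.1 hcon
  have hC1 : M.Indep (C ∩ X) := by
    apply hC.ssubset_indep
    refine ⟨inter_subset_left, fun h3 => h1 (fun x hx => (h3 hx).2)⟩
  have hC2 : M.Indep (C ∩ Y) := by
    apply hC.ssubset_indep
    refine ⟨inter_subset_left, fun h3 => h2 (fun x hx => (h3 hx).2)⟩
  obtain ⟨I, hI, hCI⟩ := hC1.subset_isBasis_of_subset inter_subset_right hX
  obtain ⟨J, hJ, hCJ⟩ := hC2.subset_isBasis_of_subset inter_subset_right hY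
  have hle : (I ∪ J).ncard ≤ I.ncard + J.ncard := ncard_union_le I J
  have hfin : (I ∪ J).Finite := fin_of_sub (union_subset hI.left_subset_ground hJ.left_subset_ground)
  have hrk : rk M (I ∪ J) = rk M (X ∪ Y) := by
    rw [← rk_closure (M := M) (I ∪ J), ← rk_closure (M := M) (X ∪ Y)]
    congr 1
    exact Matroid.closure_union_congr_left hI.closure_eq_closure |>.trans
      (Matroid.closure_union_congr_right hJ.closure_eq_closure)
  have hind : M.Indep (I ∪ J) := by
    rw [Matroid.indep_iff_eRk_eq_encard_of_finite hfin]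
    apply le_antisymm (M.eRk_le_encard _)
    rw [← cast_rk, ← hfin.cast_ncard_eq]
    rw [rk_eq_ncard_of_isBasis hI, rk_eq_ncard_of_isBasis hJ] at h
    have : (I ∪ J).ncard ≤ rk M (I ∪ J) := by omega
    exact_mod_cast this
  refine hC.not_indep (hind.subset fun x hx => ?_)
  rcases hCs hx with h3 | h3
  · exact Or.inl (hCI ⟨hx, h3⟩)
  · exact Or.inr (hCJ ⟨hx, h3⟩)

/-- every two nonempty complementary parts of `F` are joined by a circuit inside `F` -/
def Conn (M : Matroid α) (F : Set α) : Prop :=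
  ∀ S ⊆ M.E, S ⊆ F → S.Nonempty → ¬ F ⊆ S → ∃ C, M.IsCircuit C ∧ C ⊆ F ∧ (C ∩ S).Nonempty ∧ ¬ C ⊆ S

/-- no circuit leaves `K` -/
def Sep (M : Matroid α) (K : Set α) : Prop := ∀ C, M.IsCircuit C → (C ∩ K).Nonempty → C ⊆ K

/-- the order given by `f` is good on `K` -/
def Good (M : Matroid α) (K : Set α) (f : α → ℕ) : Prop :=
  ∀ C, M.IsCircuit C → C ⊆ K → ∀ a ∈ C, ∀ b ∈ C, (∀ c ∈ C, f c ≤ f a) → (∀ c ∈ C, f b ≤ f c) →
    rk M {x | x ∈ K ∧ f x ≤ f a} + rk M {x | x ∈ K ∧ f b ≤ f x} ≤ rk M K + rk M C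

theorem Sep.noCross (hK : Sep M K) (X : Set α) : NoCross M K X := by
  intro C hC hCs
  by_cases h : (C ∩ K).Nonempty
  · exact Or.inl (hK C hC h)
  · right
    intro x hx
    rcases hCs hx with h1 | h1
    · exact absurd ⟨x, hx, h1⟩ h
    · exact h1

theorem Sep.sdiff (hK : Sep M K) (hS : Sep M S) : Sep M (S \ K) := by
  intro C hC hne x hx
  obtain ⟨y, hyC, hyS, hyK⟩ := hne
  refine ⟨hS C hC ⟨y, hyC, hyS⟩ hx, fun hxK => hyK (hK C hC ⟨x, hx, hxK⟩ hyC)⟩

theorem exists_component (hS : Sep M S) (hSE : S ⊆ M.E) (hne : S.Nonempty) :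
    ∃ K ⊆ S, K.Nonempty ∧ Sep M K ∧ Conn M K := by
  have hfin : S.Finite := fin_of_sub hSE
  obtain ⟨n, hn⟩ : ∃ n, S.ncard = n := ⟨_, rfl⟩
  induction n using Nat.strong_induction_on generalizing S with
  | _ n ih =>
    by_cases hc : Conn M S
    · exact ⟨S, subset_rfl, hne, hS, hc⟩
    · unfold Conn at hc
      simp only [not_forall, not_exists, not_and, not_not] at hc
      obtain ⟨T, hTE, hTS, hTne, hST, hT⟩ := hc
      have hT' : Sep M T := by
        intro C hC hne'
        refine hT C hC (hS C hC ?_) hne'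
        obtain ⟨x, hx, hxT⟩ := hne'
        exact ⟨x, hx, hTS hxT⟩
      have hlt : T.ncard < S.ncard := ncard_lt_ncard ⟨hTS, hST⟩ hfin
      obtain ⟨K, hKT, h1, h2, h3⟩ := ih T.ncard (hn ▸ hlt) hT' hTE hTne (hfin.subset hTS) rfl
      exact ⟨K, hKT.trans hTS, h1, h2, h3⟩

theorem good_glue {f g : α → ℕ} (hKS : K ⊆ S) (hSE : S ⊆ M.E) (hK : Sep M K)
    (hf : Good M K f) (hg : Good M (S \ K) g) : ∃ h, Good M S h := by
  classical
  have hKE : K ⊆ M.E := hKS.trans hSE
  have hKf : K.Finite := fin_of_sub hKE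
  obtain ⟨N, hN⟩ : ∃ N, ∀ x ∈ K, f x < N := by
    obtain ⟨b, hb⟩ := (hKf.image f).bddAbove
    exact ⟨b + 1, fun x hx => Nat.lt_succ_of_le (hb ⟨x, hx, rfl⟩)⟩
  have hU : K ∪ S \ K = S := union_sdiff_cancel hKS
  have hrS : rk M S = rk M K + rk M (S \ K) := by
    conv_lhs => rw [← hU]
    exact rk_union_of_noCross hKE (sdiff_subset.trans hSE) disjoint_sdiff_right (hK.noCross _)
  refine ⟨fun x => if x ∈ K then f x else N + g x, ?_⟩
  intro C hC hCS a ha b hb hmax hmin
  by_cases hm : (C ∩ K).Nonempty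
  · have hCK : C ⊆ K := hK C hC hm
    have h1 : {x | x ∈ S ∧ (if x ∈ K then f x else N + g x) ≤ (if a ∈ K then f a else N + g a)}
        ⊆ {x | x ∈ K ∧ f x ≤ f a} := by
      rintro x ⟨hxS, hx⟩
      rw [if_pos (hCK ha)] at hx
      by_cases hxK : x ∈ K
      · rw [if_pos hxK] at hx
        exact ⟨hxK, hx⟩
      · rw [if_neg hxK] at hx
        have := hN a (hCK ha)
        omega
    have h2 : {x | x ∈ S ∧ (if b ∈ K then f b else N + g b) ≤ (if x ∈ K then f x else N + g x)}
        ⊆ {x | x ∈ K ∧ f b ≤ f x} ∪ (S \ K) := by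
      rintro x ⟨hxS, hx⟩
      rw [if_pos (hCK hb)] at hx
      by_cases hxK : x ∈ K
      · rw [if_pos hxK] at hx
        exact Or.inl ⟨hxK, hx⟩
      · exact Or.inr ⟨hxS, hxK⟩
    have h3 := hf C hC hCK a ha b hb (fun c hc => by
      have := hmax c hc
      simpa only [if_pos (hCK hc), if_pos (hCK ha)] using this) (fun c hc => by
      have := hmin c hc
      simpa only [if_pos (hCK hc), if_pos (hCK hb)] using this)
    have h4 := rk_mono (M := M) h1
    have h5 := rk_mono (M := M) h2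
    have h6 := rk_union_le (M := M) {x | x ∈ K ∧ f b ≤ f x} (S \ K)
    simp only at h4 h5 ⊢
    omega
  · have hCK : C ⊆ S \ K := fun x hx => ⟨hCS hx, fun hxK => hm ⟨x, hx, hxK⟩⟩
    have h1 : {x | x ∈ S ∧ (if x ∈ K then f x else N + g x) ≤ (if a ∈ K then f a else N + g a)}
        ⊆ K ∪ {x | x ∈ S \ K ∧ g x ≤ g a} := by
      rintro x ⟨hxS, hx⟩
      rw [if_neg (hCK ha).2] at hx
      by_cases hxK : x ∈ K
      · exact Or.inl hxK
      · rw [if_neg hxK] at hx
        exact Or.inr ⟨⟨hxS, hxK⟩, by omega⟩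
    have h2 : {x | x ∈ S ∧ (if b ∈ K then f b else N + g b) ≤ (if x ∈ K then f x else N + g x)}
        ⊆ {x | x ∈ S \ K ∧ g b ≤ g x} := by
      rintro x ⟨hxS, hx⟩
      rw [if_neg (hCK hb).2] at hx
      by_cases hxK : x ∈ K
      · rw [if_pos hxK] at hx
        have := hN x hxK
        omega
      · rw [if_neg hxK] at hx
        exact ⟨⟨hxS, hxK⟩, by omega⟩
    have h3 := hg C hC hCK a ha b hb (fun c hc => by
      have := hmax c hc
      simp only [if_neg (hCK hc).2, if_neg (hCK ha).2] at this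
      omega) (fun c hc => by
      have := hmin c hc
      simp only [if_neg (hCK hc).2, if_neg (hCK hb).2] at this
      omega)
    have h4 := rk_mono (M := M) h1
    have h5 := rk_mono (M := M) h2
    have h6 := rk_union_le (M := M) K {x | x ∈ S \ K ∧ g x ≤ g a}
    simp only at h4 h5 ⊢
    omega

theorem good_of_components (h : ∀ K ⊆ M.E, K.Nonempty → Sep M K → Conn M K → ∃ f, Good M K f) :
    ∀ (n : ℕ) (S : Set α), S.ncard = n → S ⊆ M.E → Sep M S → ∃ f, Good M S f := by
  intro n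
  induction n using Nat.strong_induction_on with
  | _ n ih =>
    intro S hn hSE hS
    rcases S.eq_empty_or_nonempty with rfl | hne
    · refine ⟨fun _ => 0, ?_⟩
      intro C hC hCS a ha
      exact absurd (hCS ha) (notMem_empty a)
    · obtain ⟨K, hKS, hKne, hK, hKc⟩ := exists_component hS hSE hne
      obtain ⟨f, hf⟩ := h K (hKS.trans hSE) hKne hK hKc
      have hlt : (S \ K).ncard < n := by
        rw [← hn]
        apply ncard_lt_ncard _ (fin_of_sub hSE)
        refine ⟨sdiff_subset, fun hcon => ?_⟩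
        obtain ⟨x, hx⟩ := hKne
        exact (hcon (hKS hx)).2 hx
      obtain ⟨g, hg⟩ := ih _ hlt (S \ K) rfl (sdiff_subset.trans hSE) (hK.sdiff hS)
      exact good_glue hKS hSE hK hf hg

theorem good_restrict {f : α → ℕ} (hf : Good M M.E f) (hK : Sep M K) (hKE : K ⊆ M.E) :
    Good M K f := by
  intro C hC hCK a ha b hb hmax hmin
  have h0 := hf C hC hC.subset_ground a ha b hb hmax hmin
  have hc : M.E \ K ⊆ M.E := sdiff_subset
  have e0 : rk M M.E = rk M K + rk M (M.E \ K) := by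
    conv_lhs => rw [← union_sdiff_cancel hKE]
    exact rk_union_of_noCross hKE hc disjoint_sdiff_right (hK.noCross _)
  have e1 : rk M {x | x ∈ M.E ∧ f x ≤ f a}
      = rk M {x | x ∈ K ∧ f x ≤ f a} + rk M {x | x ∈ M.E \ K ∧ f x ≤ f a} := by
    have : {x | x ∈ M.E ∧ f x ≤ f a} = {x | x ∈ K ∧ f x ≤ f a} ∪ {x | x ∈ M.E \ K ∧ f x ≤ f a} := by
      ext x
      constructor
      · rintro ⟨h1, h2⟩
        by_cases h3 : x ∈ K
        · exact Or.inl ⟨h3, h2⟩
        · exact Or.inr ⟨⟨h1, h3⟩, h2⟩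
      · rintro (⟨h1, h2⟩ | ⟨h1, h2⟩)
        · exact ⟨hKE h1, h2⟩
        · exact ⟨h1.1, h2⟩
    rw [this]
    apply rk_union_of_noCross (fun x hx => hKE hx.1) (fun x hx => hx.1.1)
    · rw [disjoint_left]
      rintro x ⟨h1, _⟩ ⟨h2, _⟩
      exact h2.2 h1
    · intro D hD hDs
      by_cases hm : (D ∩ K).Nonempty
      · left
        intro x hx
        rcases hDs hx with h3 | h3
        · exact h3
        · exact absurd (hK D hD hm hx) h3.1.2
      · right
        intro x hx
        rcases hDs hx with h3 | h3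
        · exact absurd ⟨x, hx, h3.1⟩ hm
        · exact h3
  have e2 : rk M {x | x ∈ M.E ∧ f b ≤ f x}
      = rk M {x | x ∈ K ∧ f b ≤ f x} + rk M {x | x ∈ M.E \ K ∧ f b ≤ f x} := by
    have : {x | x ∈ M.E ∧ f b ≤ f x} = {x | x ∈ K ∧ f b ≤ f x} ∪ {x | x ∈ M.E \ K ∧ f b ≤ f x} := by
      ext x
      constructor
      · rintro ⟨h1, h2⟩
        by_cases h3 : x ∈ K
        · exact Or.inl ⟨h3, h2⟩
        · exact Or.inr ⟨⟨h1, h3⟩, h2⟩
      · rintro (⟨h1, h2⟩ | ⟨h1, h2⟩)
        · exact ⟨hKE h1, h2⟩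
        · exact ⟨h1.1, h2⟩
    rw [this]
    apply rk_union_of_noCross (fun x hx => hKE hx.1) (fun x hx => hx.1.1)
    · rw [disjoint_left]
      rintro x ⟨h1, _⟩ ⟨h2, _⟩
      exact h2.2 h1
    · intro D hD hDs
      by_cases hm : (D ∩ K).Nonempty
      · left
        intro x hx
        rcases hDs hx with h3 | h3
        · exact h3
        · exact absurd (hK D hD hm hx) h3.1.2
      · right
        intro x hx
        rcases hDs hx with h3 | h3
        · exact absurd ⟨x, hx, h3.1⟩ hm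
        · exact h3
  have e3 : rk M (M.E \ K) ≤ rk M {x | x ∈ M.E \ K ∧ f x ≤ f a} + rk M {x | x ∈ M.E \ K ∧ f b ≤ f x} := by
    refine le_trans (rk_mono ?_) (rk_union_le _ _)
    intro x hx
    rcases le_total (f x) (f a) with h | h
    · exact Or.inl ⟨hx, h⟩
    · exact Or.inr ⟨hx, (hmin a ha).trans h⟩
  omega

/-- `F` is closed relative to `K` -/
def FlatIn (M : Matroid α) (K F : Set α) : Prop :=
  ∀ X ⊆ M.E, ∀ I ⊆ M.E, X ⊆ K → F ⊆ X → M.IsBasis I F → M.IsBasis I X → X ⊆ F

/-- the connected relative flats of `K` containing `A` -/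
def Fam (M : Matroid α) (K A F : Set α) : Prop :=
  F ⊆ K ∧ A ⊆ F ∧ FlatIn M K F ∧ Conn M F

/-- the property of the components of a lattice path matroid that the sentence expresses -/
def Psi (M : Matroid α) (K : Set α) : Prop :=
  ∃ A ⊆ M.E, ∃ Z ⊆ M.E,
    (∀ F ⊆ M.E, ∀ G ⊆ M.E, Fam M K A F → Fam M K A G → F ⊆ G ∨ G ⊆ F) ∧
    (∀ F ⊆ M.E, ∀ G ⊆ M.E, Fam M K Z F → Fam M K Z G → F ⊆ G ∨ G ⊆ F) ∧
    (∀ F ⊆ M.E, ∀ G ⊆ M.E, Fam M K A F → Fam M K Z G → (F ∩ G).Nonempty → K ⊆ F ∪ G) ∧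
    (∀ C, M.IsCircuit C → C ⊆ K → ∃ F ⊆ M.E, ∃ G ⊆ M.E, Fam M K A F ∧ Fam M K Z G ∧ C ⊆ F ∧ C ⊆ G ∧
      ∃ I ⊆ M.E, ∃ J ⊆ M.E, ∃ H ⊆ M.E, M.IsBasis I F ∧ M.IsBasis J G ∧ M.Indep H ∧ I ⊆ H ∧ J ⊆ H ∧
        I ∩ J ⊆ C)

theorem good_of_psi (h : Psi M K) : ∃ f, Good M K f := by
  classical
  obtain ⟨A, -, Z, -, h1, h2, h3, h4⟩ := h
  have hfin : {F : Set α | F ⊆ M.E}.Finite := M.ground_finite.finite_subsets
  set u : α → ℕ := fun x => {F | F ⊆ M.E ∧ Fam M K A F ∧ x ∉ F}.ncard with hu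
  set v : α → ℕ := fun x => {G | G ⊆ M.E ∧ Fam M K Z G ∧ x ∈ G}.ncard with hv
  refine ⟨fun x => u x + v x, ?_⟩
  intro C hC hCK a ha b hb hmax hmin
  obtain ⟨F, hFE, G, hGE, hF, hG, hCF, hCG, I, hIE, J, hJE, H, hHE, hI, hJ, hH, hIH, hJH, hIJ⟩ :=
    h4 C hC hCK
  have hKFG : K ⊆ F ∪ G := h3 F hFE G hGE hF hG ⟨a, hCF ha, hCG ha⟩
  have e1 : {x | x ∈ K ∧ u x + v x ≤ u a + v a} ⊆ F := by
    rintro x ⟨hxK, hx⟩
    by_contra hxF
    have hua : u a < u x := by
      apply ncard_lt_ncard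
      · refine ⟨?_, ?_⟩
        · rintro F' ⟨q1, q2, q3⟩
          refine ⟨q1, q2, fun hxF' => ?_⟩
          rcases h1 F hFE F' q1 hF q2 with h5 | h5
          · exact q3 (h5 (hCF ha))
          · exact hxF (h5 hxF')
        · intro hcon
          exact (hcon ⟨hFE, hF, hxF⟩).2.2 (hCF ha)
      · exact hfin.subset fun F' hF' => hF'.1
    have hva : v a ≤ v x := by
      apply ncard_le_ncard
      · rintro G' ⟨q1, q2, q3⟩
        refine ⟨q1, q2, ?_⟩
        rcases h3 F hFE G' q1 hF q2 ⟨a, hCF ha, q3⟩ hxK with h5 | h5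
        · exact absurd h5 hxF
        · exact h5
      · exact hfin.subset fun F' hF' => hF'.1
    omega
  have e2 : {x | x ∈ K ∧ u b + v b ≤ u x + v x} ⊆ G := by
    rintro x ⟨hxK, hx⟩
    by_contra hxG
    have hvb : v x < v b := by
      apply ncard_lt_ncard
      · refine ⟨?_, ?_⟩
        · rintro G' ⟨q1, q2, q3⟩
          refine ⟨q1, q2, ?_⟩
          rcases h2 G hGE G' q1 hG q2 with h5 | h5
          · exact h5 (hCG hb)
          · exact absurd (h5 q3) hxG
        · intro hcon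
          exact hxG (hcon ⟨hGE, hG, hCG hb⟩).2.2
      · exact hfin.subset fun F' hF' => hF'.1
    have hub : u x ≤ u b := by
      apply ncard_le_ncard
      · rintro F' ⟨q1, q2, q3⟩
        refine ⟨q1, q2, fun hbF' => ?_⟩
        rcases h3 F' q1 G hGE q2 hG ⟨b, hbF', hCG hb⟩ hxK with h5 | h5
        · exact q3 h5
        · exact hxG h5
      · exact hfin.subset fun F' hF' => hF'.1
    omega
  have r1 := rk_mono (M := M) e1
  have r2 := rk_mono (M := M) e2
  have r3 : rk M F = I.ncard := rk_eq_ncard_of_isBasis hI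
  have r4 : rk M G = J.ncard := rk_eq_ncard_of_isBasis hJ
  have r5 : (I ∪ J).ncard + (I ∩ J).ncard = I.ncard + J.ncard :=
    ncard_union_add_ncard_inter I J (fin_of_sub hIE) (fin_of_sub hJE)
  have r6 : (I ∪ J).ncard ≤ rk M K :=
    ncard_le_rk (hH.subset (union_subset hIH hJH))
      (union_subset (hI.subset.trans hF.1) (hJ.subset.trans hG.1))
  have r7 : (I ∩ J).ncard ≤ rk M C :=
    ncard_le_rk (hI.indep.subset inter_subset_left) hIJ
  simp only at r1 r2 ⊢
  omega

theorem good_rev {f : α → ℕ} {N : ℕ} (hN : ∀ x ∈ K, f x ≤ N) (hf : Good M K f) :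
    Good M K (fun x => N - f x) := by
  intro C hC hCK a ha b hb hmax hmin
  have h := hf C hC hCK b hb a ha
    (fun c hc => by
      have h1 := hmin c hc
      have h2 := hN c (hCK hc)
      have h3 := hN b (hCK hb)
      simp only at h1
      omega)
    (fun c hc => by
      have h1 := hmax c hc
      have h2 := hN c (hCK hc)
      have h3 := hN a (hCK ha)
      simp only at h1
      omega)
  have e1 : {x | x ∈ K ∧ N - f x ≤ N - f a} ⊆ {x | x ∈ K ∧ f a ≤ f x} := by
    rintro x ⟨hx, h1⟩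
    have h2 := hN x hx
    have h3 := hN a (hCK ha)
    exact ⟨hx, by omega⟩
  have e2 : {x | x ∈ K ∧ N - f b ≤ N - f x} ⊆ {x | x ∈ K ∧ f x ≤ f b} := by
    rintro x ⟨hx, h1⟩
    have h2 := hN x hx
    have h3 := hN b (hCK hb)
    exact ⟨hx, by omega⟩
  have r1 := rk_mono (M := M) e1
  have r2 := rk_mono (M := M) e2
  simp only at r1 r2 ⊢
  omega

theorem nonloop_of_conn (hc : Conn M K) (hKE : K ⊆ M.E) {x y : α} (hx : x ∈ K) (hy : y ∈ K)
    (hxy : x ≠ y) : ¬ M.IsCircuit {x} := by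
  intro hcon
  obtain ⟨C, hC, hCK, ⟨z, hz, hzx⟩, hCx⟩ := hc {x} (singleton_subset_iff.2 (hKE hx))
    (singleton_subset_iff.2 hx) (singleton_nonempty x) (fun h => hxy (h hy).symm)
  rw [mem_singleton_iff] at hzx
  subst hzx
  have : {z} ⊆ C := singleton_subset_iff.2 hz
  exact hCx (hcon.eq_of_subset_isCircuit hC this).symm.subset

theorem subset_closure_of_rk_le (hXY : X ⊆ Y) (hY : Y ⊆ M.E) (h : rk M Y ≤ rk M X) :
    Y ⊆ M.closure X := by
  have h1 : M.eRk Y ≤ M.eRk X := by
    rw [← cast_rk, ← cast_rk]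
    exact_mod_cast h
  rw [(M.isRkFinite_set X).closure_eq_closure_of_subset_of_eRk_ge_eRk hXY h1]
  exact M.subset_closure Y

theorem hull_sub {f : α → ℕ} (hf : Good M K f) (hKE : K ⊆ M.E) (hC : M.IsCircuit C) (hCK : C ⊆ K)
    {p q x : α} (hp : p ∈ C) (hq : q ∈ C) (hx : x ∈ K) (h1 : f p ≤ f x) (h2 : f x ≤ f q) :
    x ∈ M.closure C := by
  have hfin : C.Finite := fin_of_sub hC.subset_ground
  obtain ⟨a, ha, hmax⟩ := Set.exists_max_image C f hfin hC.nonempty
  obtain ⟨b, hb, hmin⟩ := Set.exists_min_image C f hfin hC.nonempty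
  have h3 := hf C hC hCK a ha b hb hmax hmin
  have h4 := rk_submod (M := M) {x | x ∈ K ∧ f x ≤ f a} {x | x ∈ K ∧ f b ≤ f x}
  have h5 : K ⊆ {x | x ∈ K ∧ f x ≤ f a} ∪ {x | x ∈ K ∧ f b ≤ f x} := by
    intro y hy
    rcases le_total (f y) (f a) with h | h
    · exact Or.inl ⟨hy, h⟩
    · exact Or.inr ⟨hy, (hmin a ha).trans h⟩
  have h6 := rk_mono (M := M) h5
  have h7 : C ⊆ {x | x ∈ K ∧ f x ≤ f a} ∩ {x | x ∈ K ∧ f b ≤ f x} :=
    fun y hy => ⟨⟨hCK hy, hmax y hy⟩, ⟨hCK hy, hmin y hy⟩⟩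
  refine subset_closure_of_rk_le h7 (fun y hy => hKE hy.1.1) (by omega) ?_
  exact ⟨⟨hx, h2.trans (hmax q hq)⟩, ⟨hx, (hmin p hp).trans h1⟩⟩

theorem conn_initial {f : α → ℕ} (hf : Good M K f) (hinj : InjOn f K) (hKE : K ⊆ M.E)
    (hc : Conn M K) (hC : M.IsCircuit C) (hCK : C ⊆ K) {a : α} (ha : a ∈ C)
    (hmax : ∀ c ∈ C, f c ≤ f a) : Conn M {x | x ∈ K ∧ f x ≤ f a} := by
  by_contra hcon
  -- a part without `a`
  obtain ⟨T, hTA, hTne, haT, hT⟩ : ∃ T ⊆ {x | x ∈ K ∧ f x ≤ f a}, T.Nonempty ∧ a ∉ T ∧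
      ∀ D, M.IsCircuit D → D ⊆ {x | x ∈ K ∧ f x ≤ f a} → (D ∩ T).Nonempty → D ⊆ T := by
    unfold Conn at hcon
    simp only [not_forall, not_exists, not_and, not_not] at hcon
    obtain ⟨S, -, hSA, hSne, hAS, hS⟩ := hcon
    by_cases haS : a ∈ S
    · refine ⟨{x | x ∈ K ∧ f x ≤ f a} \ S, sdiff_subset, ?_, fun h => h.2 haS, ?_⟩
      · rw [sdiff_nonempty]
        exact hAS
      · intro D hD hDA hne x hx
        refine ⟨hDA hx, fun hxS => ?_⟩
        obtain ⟨y, hy, -, hyS⟩ := hne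
        exact hyS (hS D hD hDA ⟨x, hx, hxS⟩ hy)
    · exact ⟨S, hSA, hSne, haS, fun D hD hDA hne => hS D hD hDA hne⟩
  have hTfin : T.Finite := fin_of_sub (fun x hx => hKE (hTA hx).1)
  obtain ⟨t, ht, htmax⟩ := Set.exists_max_image T f hTfin hTne
  have htK : t ∈ K := (hTA ht).1
  have haK : a ∈ K := hCK ha
  have hta : f t < f a := by
    refine lt_of_le_of_ne (hTA ht).2 fun h => haT ?_
    rw [← hinj htK haK h]
    exact ht
  have hUV : NoCross M {x | x ∈ K ∧ f x ≤ f t} {x | x ∈ K ∧ f t < f x ∧ f x ≤ f a} := by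
    intro D hD hDs
    by_contra h
    obtain ⟨h1, h2⟩ := not_or.1 h
    obtain ⟨y, hyD, hyU⟩ := not_subset.1 h1
    obtain ⟨x, hxD, hxV⟩ := not_subset.1 h2
    have hy : y ∈ K ∧ f t < f y ∧ f y ≤ f a := (hDs hyD).resolve_left hyU
    have hx : x ∈ K ∧ f x ≤ f t := (hDs hxD).resolve_right hxV
    have hDA : D ⊆ {x | x ∈ K ∧ f x ≤ f a} := by
      intro z hz
      rcases hDs hz with h3 | h3
      · exact ⟨h3.1, h3.2.trans hta.le⟩
      · exact ⟨h3.1, h3.2.2⟩
    have hDT : ¬ (D ∩ T).Nonempty := by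
      intro h3
      have := hT D hD hDA h3 hyD
      exact absurd (htmax y this) (not_le.2 hy.2.1)
    have htD : t ∉ D := fun h3 => hDT ⟨t, h3, ht⟩
    have htcl : t ∈ M.closure D :=
      hull_sub hf hKE hD (fun z hz => (hDA hz).1) hxD hyD htK hx.2 hy.2.1.le
    obtain ⟨D', hD's, hD', htD'⟩ := Matroid.exists_isCircuit_of_mem_closure htcl htD
    have hD'A : D' ⊆ {x | x ∈ K ∧ f x ≤ f a} := by
      intro z hz
      rcases hD's hz with h3 | h3
      · rw [h3]
        exact ⟨htK, hta.le⟩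
      · exact hDA h3
    have hD'T := hT D' hD' hD'A ⟨t, htD', ht⟩
    have hD'eq : D' = {t} := by
      apply Subset.antisymm
      · intro z hz
        rcases hD's hz with h3 | h3
        · exact h3
        · exact absurd ⟨z, h3, hD'T hz⟩ hDT
      · exact singleton_subset_iff.2 htD'
    rw [hD'eq] at hD'
    exact nonloop_of_conn hc hKE htK haK (fun h => haT (h ▸ ht)) hD'
  obtain ⟨b, hb, hmin⟩ := Set.exists_min_image C f (fin_of_sub hC.subset_ground) hC.nonempty
  have hgood := hf C hC hCK a ha b hb hmax hmin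
  have eA : {x | x ∈ K ∧ f x ≤ f t} ∪ {x | x ∈ K ∧ f t < f x ∧ f x ≤ f a}
      = {x | x ∈ K ∧ f x ≤ f a} := by
    ext x
    constructor
    · rintro (⟨h1, h2⟩ | ⟨h1, h2, h3⟩)
      · exact ⟨h1, h2.trans hta.le⟩
      · exact ⟨h1, h3⟩
    · rintro ⟨h1, h2⟩
      rcases le_or_gt (f x) (f t) with h | h
      · exact Or.inl ⟨h1, h⟩
      · exact Or.inr ⟨h1, h, h2⟩
  have hrA := rk_union_of_noCross (M := M) (X := {x | x ∈ K ∧ f x ≤ f t})
    (Y := {x | x ∈ K ∧ f t < f x ∧ f x ≤ f a}) (fun x hx => hKE hx.1) (fun x hx => hKE hx.1)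
    (by
      rw [disjoint_left]
      rintro x ⟨_, h1⟩ ⟨_, h2, _⟩
      omega) hUV
  rw [eA] at hrA
  have hCV : C ⊆ {x | x ∈ K ∧ f t < f x ∧ f x ≤ f a} := by
    rcases hUV C hC (by
      rw [eA]
      exact fun x hx => ⟨hCK hx, hmax x hx⟩) with h | h
    · exact absurd (h ha).2 (not_le.2 hta)
    · exact h
  have hsub := rk_submod (M := M) {x | x ∈ K ∧ f t < f x ∧ f x ≤ f a} {x | x ∈ K ∧ f b ≤ f x}
  have hW : {x | x ∈ K ∧ f t < f x} ⊆
      {x | x ∈ K ∧ f t < f x ∧ f x ≤ f a} ∪ {x | x ∈ K ∧ f b ≤ f x} := by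
    rintro x ⟨h1, h2⟩
    rcases le_total (f x) (f a) with h | h
    · exact Or.inl ⟨h1, h2, h⟩
    · exact Or.inr ⟨h1, (hmin a ha).trans h⟩
  have hCi : C ⊆ {x | x ∈ K ∧ f t < f x ∧ f x ≤ f a} ∩ {x | x ∈ K ∧ f b ≤ f x} :=
    fun x hx => ⟨hCV hx, hCK hx, hmin x hx⟩
  have r1 := rk_mono (M := M) hW
  have r2 := rk_mono (M := M) hCi
  have eK : {x | x ∈ K ∧ f x ≤ f t} ∪ {x | x ∈ K ∧ f t < f x} = K := by
    ext x
    constructor
    · rintro (⟨h1, _⟩ | ⟨h1, _⟩) <;> exact h1
    · intro h1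
      rcases le_or_gt (f x) (f t) with h | h
      · exact Or.inl ⟨h1, h⟩
      · exact Or.inr ⟨h1, h⟩
  have hUW : NoCross M {x | x ∈ K ∧ f x ≤ f t} {x | x ∈ K ∧ f t < f x} := by
    apply noCross_of_rk (fun x hx => hKE hx.1) (fun x hx => hKE hx.1)
    rw [eK]
    omega
  obtain ⟨D, hD, hDK, ⟨z, hzD, hzU⟩, hDU⟩ := hc {x | x ∈ K ∧ f x ≤ f t} (fun x hx => hKE hx.1)
    (fun x hx => hx.1) ⟨t, htK, le_rfl⟩ (fun h => absurd (h haK).2 (not_le.2 hta))
  rcases hUW D hD (by rw [eK]; exact hDK) with h | h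
  · exact hDU h
  · exact absurd (h hzD).2 (not_lt.2 hzU.2)

theorem flatIn_closure (X : Set α) : FlatIn M K (M.closure X ∩ K) := by
  intro Y hYE I hIE hYK hFY hI1 hI2 y hy
  refine ⟨?_, hYK hy⟩
  have h1 : y ∈ M.closure Y := M.subset_closure Y hYE hy
  rw [← hI2.closure_eq_closure, hI1.closure_eq_closure] at h1
  exact M.closure_subset_closure_of_subset_closure inter_subset_left h1

theorem mem_of_flatIn (hKE : K ⊆ M.E) (hF : FlatIn M K F) (hFK : F ⊆ K) {y : α} (hy : y ∈ K)
    (hcl : y ∈ M.closure F) : y ∈ F := by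
  have hFE : F ⊆ M.E := hFK.trans hKE
  obtain ⟨I, hI⟩ := M.exists_isBasis F
  have hX : insert y F ⊆ M.E := insert_subset (hKE hy) hFE
  have h2 : M.IsBasis I (insert y F) :=
    hI.isBasis_closure_right.isBasis_subset (hI.subset.trans (subset_insert _ _))
      (insert_subset hcl (M.subset_closure F))
  exact hF (insert y F) hX I hI.left_subset_ground (insert_subset hy hFK) (subset_insert _ _) hI h2
    (mem_insert _ _)

theorem conn_closure (hc : Conn M K) (hKE : K ⊆ M.E) {A : Set α} (hA : Conn M A) (hAK : A ⊆ K)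
    (hne : A.Nonempty) : Conn M (M.closure A ∩ K) := by
  have hAE : A ⊆ M.E := hAK.trans hKE
  have hAF : A ⊆ M.closure A ∩ K := fun x hx => ⟨M.subset_closure A hAE hx, hAK hx⟩
  obtain ⟨a, ha⟩ := hne
  -- an element outside lies in a circuit with elements of `A`
  have key : ∀ x ∈ M.closure A ∩ K, x ∉ A → ∃ D, M.IsCircuit D ∧ D ⊆ M.closure A ∩ K ∧ x ∈ D ∧
      D ⊆ insert x A ∧ ∃ y ∈ D, y ∈ A := by
    rintro x ⟨hx1, hx2⟩ hxA
    obtain ⟨D, hDs, hD, hxD⟩ := Matroid.exists_isCircuit_of_mem_closure hx1 hxA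
    refine ⟨D, hD, hDs.trans (insert_subset ⟨hx1, hx2⟩ hAF), hxD, hDs, ?_⟩
    by_contra hno
    have : D = {x} := by
      apply Subset.antisymm
      · intro z hz
        rcases hDs hz with h | h
        · exact h
        · exact absurd ⟨z, hz, h⟩ hno
      · exact singleton_subset_iff.2 hxD
    rw [this] at hD
    exact nonloop_of_conn hc hKE hx2 (hAK ha) (fun h => hxA (h ▸ ha)) hD
  intro S hSE hSF hSne hFS
  by_cases h1 : (S ∩ A).Nonempty
  · by_cases h2 : A ⊆ S
    · obtain ⟨x, hxF, hxS⟩ := not_subset.1 hFS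
      obtain ⟨D, hD, hDF, hxD, -, y, hyD, hyA⟩ := key x hxF (fun h => hxS (h2 h))
      exact ⟨D, hD, hDF, ⟨y, hyD, h2 hyA⟩, fun h => hxS (h hxD)⟩
    · obtain ⟨D, hD, hDA, ⟨y, hyD, hyS⟩, hns⟩ := hA (S ∩ A) (inter_subset_left.trans hSE)
        inter_subset_right h1 (fun h => h2 (fun x hx => (h hx).1))
      exact ⟨D, hD, hDA.trans hAF, ⟨y, hyD, hyS.1⟩, fun h => hns (fun x hx => ⟨h hx, hDA hx⟩)⟩
  · obtain ⟨x, hxS⟩ := hSne
    obtain ⟨D, hD, hDF, hxD, -, y, hyD, hyA⟩ := key x (hSF hxS) (fun h => h1 ⟨x, hxS, h⟩)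
    exact ⟨D, hD, hDF, ⟨x, hxD, hxS⟩, fun h => h1 ⟨y, h hyD, hyA⟩⟩

theorem initial_of_fam {f : α → ℕ} (hf : Good M K f) (hinj : InjOn f K) (hKE : K ⊆ M.E) {m : α}
    (hmin : ∀ x ∈ K, f m ≤ f x) (hF : Fam M K {m} F) {x y : α} (hx : x ∈ F) (hy : y ∈ K)
    (hyx : f y ≤ f x) : y ∈ F := by
  obtain ⟨hFK, hmF, hflat, hconn⟩ := hF
  by_contra hyF
  obtain ⟨D, hD, hDF, ⟨s, hsD, hsF, hs⟩, hns⟩ := hconn {s | s ∈ F ∧ f s ≤ f y}
    (fun z hz => hKE (hFK hz.1)) (fun z hz => hz.1) ⟨m, hmF rfl, hmin y hy⟩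
    (fun h => hyF (by
      have := (h hx).2
      rw [hinj hy (hFK hx) (le_antisymm hyx this)]
      exact hx))
  obtain ⟨d, hdD, hd⟩ := not_subset.1 hns
  have hd' : f y < f d := by
    by_contra h
    exact hd ⟨hDF hdD, not_lt.1 h⟩
  have hcl : y ∈ M.closure D := hull_sub hf hKE hD (hDF.trans hFK) hsD hdD hy hs hd'.le
  exact hyF (mem_of_flatIn hKE hflat hFK hy (M.closure_subset_closure hDF hcl))

theorem chain_of_initial {f : α → ℕ} (hFK : F ⊆ K) (hGK : G ⊆ K)
    (hF : ∀ x ∈ F, ∀ y ∈ K, f y ≤ f x → y ∈ F) (hG : ∀ x ∈ G, ∀ y ∈ K, f y ≤ f x → y ∈ G) :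
    F ⊆ G ∨ G ⊆ F := by
  by_contra h
  obtain ⟨h1, h2⟩ := not_or.1 h
  obtain ⟨x, hxF, hxG⟩ := not_subset.1 h1
  obtain ⟨y, hyG, hyF⟩ := not_subset.1 h2
  rcases le_total (f x) (f y) with h | h
  · exact hxG (hG y hyG x (hFK hxF) h)
  · exact hyF (hF x hxF y (hGK hyG) h)

theorem psi_of_good {f : α → ℕ} (hf : Good M K f) (hinj : InjOn f K) (hKE : K ⊆ M.E)
    (hne : K.Nonempty) (hc : Conn M K) : Psi M K := by
  have hKfin : K.Finite := fin_of_sub hKE
  obtain ⟨m, hm, hmmin⟩ := Set.exists_min_image K f hKfin hne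
  obtain ⟨z, hz, hzmax⟩ := Set.exists_max_image K f hKfin hne
  have hrev : Good M K (fun x => f z - f x) := good_rev hzmax hf
  have hrinj : InjOn (fun x => f z - f x) K := by
    intro x hx y hy hxy
    apply hinj hx hy
    have h1 := hzmax x hx
    have h2 := hzmax y hy
    simp only at hxy
    omega
  have hrmin : ∀ x ∈ K, (fun x => f z - f x) z ≤ (fun x => f z - f x) x := by
    intro x hx
    simp
  have hin : ∀ F, Fam M K {m} F → ∀ x ∈ F, ∀ y ∈ K, f y ≤ f x → y ∈ F :=
    fun F hF x hx y hy hyx => initial_of_fam hf hinj hKE hmmin hF hx hy hyx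
  have hfi : ∀ G, Fam M K {z} G → ∀ x ∈ G, ∀ y ∈ K, f x ≤ f y → y ∈ G := by
    intro G hG x hx y hy hyx
    exact initial_of_fam hrev hrinj hKE hrmin hG hx hy (by
      omega)
  refine ⟨{m}, singleton_subset_iff.2 (hKE hm), {z}, singleton_subset_iff.2 (hKE hz), ?_, ?_, ?_, ?_⟩
  · intro F _ G _ hF hG
    exact chain_of_initial hF.1 hG.1 (hin F hF) (hin G hG)
  · intro F _ G _ hF hG
    apply chain_of_initial (f := fun x => f z - f x) hF.1 hG.1
    · intro x hx y hy hyx
      apply hfi F hF x hx y hy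
      have h1 := hzmax x (hF.1 hx)
      have h2 := hzmax y hy
      omega
    · intro x hx y hy hyx
      apply hfi G hG x hx y hy
      have h1 := hzmax x (hG.1 hx)
      have h2 := hzmax y hy
      omega
  · rintro F _ G _ hF hG ⟨x, hxF, hxG⟩ y hy
    rcases le_total (f y) (f x) with h | h
    · exact Or.inl (hin F hF x hxF y hy h)
    · exact Or.inr (hfi G hG x hxG y hy h)
  · intro C hC hCK
    have hCfin : C.Finite := fin_of_sub hC.subset_ground
    obtain ⟨a, ha, hmax⟩ := Set.exists_max_image C f hCfin hC.nonempty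
    obtain ⟨b, hb, hmin⟩ := Set.exists_min_image C f hCfin hC.nonempty
    have hgood := hf C hC hCK a ha b hb hmax hmin
    have hAK : {x | x ∈ K ∧ f x ≤ f a} ⊆ K := fun x hx => hx.1
    have hBK : {x | x ∈ K ∧ f b ≤ f x} ⊆ K := fun x hx => hx.1
    have hA : Conn M {x | x ∈ K ∧ f x ≤ f a} := conn_initial hf hinj hKE hc hC hCK ha hmax
    have hB : Conn M {x | x ∈ K ∧ f b ≤ f x} := by
      have h1 := conn_initial hrev hrinj hKE hc hC hCK hb (fun c hc' => by
        have := hmin c hc'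
        omega)
      have h2 : {x | x ∈ K ∧ f z - f x ≤ f z - f b} = {x | x ∈ K ∧ f b ≤ f x} := by
        ext x
        constructor
        · rintro ⟨h3, h4⟩
          have h5 := hzmax x h3
          have h6 := hzmax b (hCK hb)
          exact ⟨h3, by omega⟩
        · rintro ⟨h3, h4⟩
          exact ⟨h3, by omega⟩
      rw [h2] at h1
      exact h1
    set F := M.closure {x | x ∈ K ∧ f x ≤ f a} ∩ K with hFdef
    set G := M.closure {x | x ∈ K ∧ f b ≤ f x} ∩ K with hGdef
    have hAF : {x | x ∈ K ∧ f x ≤ f a} ⊆ F :=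
      fun x hx => ⟨M.subset_closure _ (hAK.trans hKE) hx, hx.1⟩
    have hBG : {x | x ∈ K ∧ f b ≤ f x} ⊆ G :=
      fun x hx => ⟨M.subset_closure _ (hBK.trans hKE) hx, hx.1⟩
    have hFK : F ⊆ K := inter_subset_right
    have hGK : G ⊆ K := inter_subset_right
    have hFE : F ⊆ M.E := hFK.trans hKE
    have hGE : G ⊆ M.E := hGK.trans hKE
    have hFF : Fam M K {m} F := by
      refine ⟨hFK, ?_, flatIn_closure _, conn_closure hc hKE hA hAK ⟨a, hCK ha, le_rfl⟩⟩
      exact singleton_subset_iff.2 (hAF ⟨hm, hmmin a (hCK ha)⟩)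
    have hGG : Fam M K {z} G := by
      refine ⟨hGK, ?_, flatIn_closure _, conn_closure hc hKE hB hBK ⟨b, hCK hb, le_rfl⟩⟩
      exact singleton_subset_iff.2 (hBG ⟨hz, hzmax b (hCK hb)⟩)
    have hCF : C ⊆ F := fun x hx => hAF ⟨hCK hx, hmax x hx⟩
    have hCG : C ⊆ G := fun x hx => hBG ⟨hCK hx, hmin x hx⟩
    refine ⟨F, hFE, G, hGE, hFF, hGG, hCF, hCG, ?_⟩
    obtain ⟨I0, hI0⟩ := M.exists_isBasis C hC.subset_ground
    obtain ⟨I, hI, hI0I⟩ := hI0.indep.subset_isBasis_of_subset (hI0.subset.trans hCF) hFE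
    obtain ⟨J, hJ, hI0J⟩ := hI0.indep.subset_isBasis_of_subset (hI0.subset.trans hCG) hGE
    have hIE := hI.left_subset_ground
    have hJE := hJ.left_subset_ground
    have rF : rk M F ≤ rk M {x | x ∈ K ∧ f x ≤ f a} := by
      rw [← rk_closure (M := M) {x | x ∈ K ∧ f x ≤ f a}]
      exact rk_mono inter_subset_left
    have rG : rk M G ≤ rk M {x | x ∈ K ∧ f b ≤ f x} := by
      rw [← rk_closure (M := M) {x | x ∈ K ∧ f b ≤ f x}]
      exact rk_mono inter_subset_left
    rw [rk_eq_ncard_of_isBasis hI] at rF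
    rw [rk_eq_ncard_of_isBasis hJ] at rG
    have rC : rk M C = I0.ncard := rk_eq_ncard_of_isBasis hI0
    have hfinIJ : (I ∪ J).Finite := fin_of_sub (union_subset hIE hJE)
    have r0 : I0.ncard ≤ (I ∩ J).ncard :=
      ncard_le_ncard (subset_inter hI0I hI0J) (fin_of_sub (inter_subset_left.trans hIE))
    have r5 : (I ∪ J).ncard + (I ∩ J).ncard = I.ncard + J.ncard :=
      ncard_union_add_ncard_inter I J (fin_of_sub hIE) (fin_of_sub hJE)
    have hspan : rk M K ≤ rk M (I ∪ J) := by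
      rw [← rk_closure (M := M) (I ∪ J)]
      apply rk_mono
      intro x hx
      have hcl : M.closure (I ∪ J) = M.closure (F ∪ G) :=
        Matroid.closure_union_congr_left hI.closure_eq_closure |>.trans
          (Matroid.closure_union_congr_right hJ.closure_eq_closure)
      rw [hcl]
      apply M.subset_closure _ (union_subset hFE hGE)
      rcases le_total (f x) (f a) with h | h
      · exact Or.inl (hAF ⟨hx, h⟩)
      · exact Or.inr (hBG ⟨hx, (hmin a ha).trans h⟩)
    have hle : rk M (I ∪ J) ≤ (I ∪ J).ncard := by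
      have := M.eRk_le_encard (I ∪ J)
      rw [← cast_rk, ← hfinIJ.cast_ncard_eq] at this
      exact_mod_cast this
    have hind : M.Indep (I ∪ J) := by
      rw [Matroid.indep_iff_eRk_eq_encard_of_finite hfinIJ]
      apply le_antisymm (M.eRk_le_encard _)
      rw [← cast_rk, ← hfinIJ.cast_ncard_eq]
      have : (I ∪ J).ncard ≤ rk M (I ∪ J) := by omega
      exact_mod_cast this
    have heq : I0 = I ∩ J := by
      apply eq_of_subset_of_ncard_le (subset_inter hI0I hI0J) _
        (fin_of_sub (inter_subset_left.trans hIE))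
      omega
    exact ⟨I, hIE, J, hJE, I ∪ J, union_subset hIE hJE, hI, hJ, hind, subset_union_left,
      subset_union_right, heq ▸ hI0.subset⟩

theorem ncard_image_fin {n : ℕ} (e : Fin n ≃ M.E) (p : Fin n → Prop) [DecidablePred p] :
    {x | ∃ i, p i ∧ (e i : α) = x}.ncard = (Finset.univ.filter p).card := by
  have hinj : Function.Injective fun i : Fin n => (e i : α) :=
    Subtype.val_injective.comp e.injective
  have : {x | ∃ i, p i ∧ (e i : α) = x}
      = (fun i : Fin n => (e i : α)) '' ((Finset.univ.filter p : Finset (Fin n)) : Set (Fin n)) := by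
    ext x
    simp
  rw [this, ncard_image_of_injective _ hinj, ncard_coe_finset]

theorem height_zero {n : ℕ} (R : Fin n → Bool) : height R 0 = 0 := by
  simp [height]

theorem height_succ {n : ℕ} (R : Fin n → Bool) (k : Fin n) :
    height R (k + 1) = height R k + if R k = true then 1 else 0 := by
  unfold height
  by_cases h : R k = true
  · have : (Finset.univ.filter fun i : Fin n => (i : ℕ) < k + 1 ∧ R i = true)
        = insert k (Finset.univ.filter fun i : Fin n => (i : ℕ) < k ∧ R i = true) := by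
      ext i
      simp only [Finset.mem_filter, Finset.mem_univ, true_and, Finset.mem_insert]
      constructor
      · rintro ⟨h1, h2⟩
        by_cases h3 : i = k
        · exact Or.inl h3
        · right
          refine ⟨?_, h2⟩
          have : (i : ℕ) ≠ k := fun h4 => h3 (Fin.ext h4)
          omega
      · rintro (h1 | ⟨h1, h2⟩)
        · subst h1
          exact ⟨by omega, h⟩
        · exact ⟨by omega, h2⟩
    rw [this, Finset.card_insert_of_notMem (by simp), if_pos h]
  · rw [if_neg h]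
    refine Eq.trans ?_ (Nat.add_zero _).symm
    refine congrArg Finset.card ?_
    ext i
    simp only [Finset.mem_filter, Finset.mem_univ, true_and]
    constructor
    · rintro ⟨h1, h2⟩
      refine ⟨?_, h2⟩
      have : (i : ℕ) ≠ k := fun h4 => h (by rw [← Fin.ext h4]; exact h2)
      omega
    · rintro ⟨h1, h2⟩
      exact ⟨by omega, h2⟩

theorem height_mono {n : ℕ} (R : Fin n → Bool) {j k : ℕ} (h : j ≤ k) : height R j ≤ height R k := by
  unfold height
  apply Finset.card_le_card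
  intro i
  simp only [Finset.mem_filter, Finset.mem_univ, true_and]
  rintro ⟨h1, h2⟩
  exact ⟨by omega, h2⟩

theorem height_of_ge {n : ℕ} (R : Fin n → Bool) {k : ℕ} (h : n ≤ k) : height R k = height R n := by
  unfold height
  refine congrArg Finset.card ?_
  ext i
  simp only [Finset.mem_filter, Finset.mem_univ, true_and]
  have := i.2
  constructor
  · rintro ⟨h1, h2⟩
    exact ⟨by omega, h2⟩
  · rintro ⟨h1, h2⟩
    exact ⟨by omega, h2⟩

/-- North steps with index in `[j, k)` -/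
theorem height_between {n : ℕ} (R : Fin n → Bool) {j k : ℕ} (h : j ≤ k) :
    (Finset.univ.filter fun i : Fin n => (j ≤ (i : ℕ) ∧ (i : ℕ) < k) ∧ R i = true).card
      + height R j = height R k := by
  unfold height
  rw [← Finset.card_union_of_disjoint]
  · congr 1
    ext i
    simp only [Finset.mem_filter, Finset.mem_univ, true_and, Finset.mem_union]
    constructor
    · rintro (⟨⟨h1, h2⟩, h3⟩ | ⟨h1, h2⟩)
      · exact ⟨h2, h3⟩
      · exact ⟨by omega, h2⟩
    · rintro ⟨h1, h2⟩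
      by_cases h3 : (i : ℕ) < j
      · exact Or.inr ⟨h3, h2⟩
      · exact Or.inl ⟨⟨by omega, h1⟩, h2⟩
  · rw [Finset.disjoint_left]
    intro i
    simp only [Finset.mem_filter, Finset.mem_univ, true_and]
    rintro ⟨⟨h1, _⟩, _⟩ ⟨h2, _⟩
    omega

/-- a sequence with steps `0` or `1` is the height function of a path -/
theorem height_of_seq {n : ℕ} (x : ℕ → ℕ) (h0 : x 0 = 0)
    (hs : ∀ k, k < n → x (k + 1) = x k ∨ x (k + 1) = x k + 1) (k : ℕ) (hk : k ≤ n) :
    height (fun i : Fin n => decide (x (i + 1) = x i + 1)) k = x k := by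
  induction k with
  | zero => rw [height_zero, h0]
  | succ k ih =>
    have h1 := height_succ (fun i : Fin n => decide (x (i + 1) = x i + 1)) ⟨k, hk⟩
    simp only [decide_eq_true_eq] at h1
    rw [h1, ih (by omega)]
    rcases hs k hk with h | h
    · rw [if_neg (by omega)]
      omega
    · rw [if_pos h]
      omega

theorem exists_paths {f : α → ℕ} (hf : Good M M.E f) {n : ℕ} (e : Fin n ≃ M.E)
    (hmono : ∀ i j : Fin n, i ≤ j → f (e i) ≤ f (e j)) (r : ℕ) (hr : rk M M.E = r) :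
    ∃ P Q : Fin n → Bool, height P n = r ∧ height Q n = r ∧ (∀ k, height P k ≤ height Q k) ∧
    ∀ B : Set α, M.IsBase B ↔
      ∃ R : Fin n → Bool, height R n = r ∧
        (∀ k, height P k ≤ height R k ∧ height R k ≤ height Q k) ∧
        B = {x | ∃ i, R i = true ∧ (e i : α) = x} := by
  classical
  -- ranks of initial and final segments
  set U : ℕ → Set α := fun k => {x | ∃ i : Fin n, (i : ℕ) < k ∧ (e i : α) = x} with hU
  set D : ℕ → Set α := fun k => {x | ∃ i : Fin n, k ≤ (i : ℕ) ∧ (e i : α) = x} with hD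
  have hUE : ∀ k, U k ⊆ M.E := by
    rintro k x ⟨i, -, rfl⟩
    exact (e i).2
  have hDE : ∀ k, D k ⊆ M.E := by
    rintro k x ⟨i, -, rfl⟩
    exact (e i).2
  have hsurj : ∀ x ∈ M.E, ∃ i, (e i : α) = x := by
    intro x hx
    exact ⟨e.symm ⟨x, hx⟩, by simp⟩
  have hinj : ∀ i j, (e i : α) = e j → i = j := fun i j h => e.injective (Subtype.ext h)
  have hUn : ∀ k, n ≤ k → U k = M.E := by
    intro k hk
    apply Subset.antisymm (hUE k)
    intro x hx
    obtain ⟨i, hi⟩ := hsurj x hx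
    exact ⟨i, by omega, hi⟩
  have hDn : ∀ k, n ≤ k → D k = ∅ := by
    intro k hk
    rw [eq_empty_iff_forall_notMem]
    rintro x ⟨i, h1, h2⟩
    have := i.2
    omega
  have hU0 : U 0 = ∅ := by
    rw [eq_empty_iff_forall_notMem]
    rintro x ⟨i, h1, h2⟩
    omega
  have hD0 : D 0 = M.E := by
    apply Subset.antisymm (hDE 0)
    intro x hx
    obtain ⟨i, hi⟩ := hsurj x hx
    exact ⟨i, by omega, hi⟩
  have hrk0 : rk M (∅ : Set α) = 0 := by
    rw [rk_eq_ncard_of_indep M.empty_indep, ncard_empty]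
  have hrins : ∀ (x : α) (X : Set α), rk M (insert x X) ≤ rk M X + 1 := by
    intro x X
    have h1 := M.eRk_insert_le_add_one x X
    rw [← cast_rk, ← cast_rk] at h1
    exact_mod_cast h1
  have hUs : ∀ k (hk : k < n), U (k + 1) = insert (e ⟨k, hk⟩ : α) (U k) := by
    intro k hk
    ext x
    constructor
    · rintro ⟨i, h1, h2⟩
      by_cases h3 : (i : ℕ) = k
      · left
        rw [← h2]
        congr 2
        exact Fin.ext h3
      · exact Or.inr ⟨i, by omega, h2⟩
    · rintro (h1 | ⟨i, h1, h2⟩)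
      · exact ⟨⟨k, hk⟩, by simp, h1.symm⟩
      · exact ⟨i, by omega, h2⟩
  have hDs : ∀ k (hk : k < n), D k = insert (e ⟨k, hk⟩ : α) (D (k + 1)) := by
    intro k hk
    ext x
    constructor
    · rintro ⟨i, h1, h2⟩
      by_cases h3 : (i : ℕ) = k
      · left
        rw [← h2]
        congr 2
        exact Fin.ext h3
      · exact Or.inr ⟨i, by omega, h2⟩
    · rintro (h1 | ⟨i, h1, h2⟩)
      · exact ⟨⟨k, hk⟩, by simp, h1.symm⟩
      · exact ⟨i, by omega, h2⟩
  set l : ℕ → ℕ := fun k => rk M (U k) with hl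
  set ρ : ℕ → ℕ := fun k => r - rk M (D k) with hρ
  have hDr : ∀ k, rk M (D k) ≤ r := fun k => hr ▸ rk_mono (hDE k)
  have hl0 : l 0 = 0 := by
    simp only [hl, hU0, hrk0]
  have hρ0 : ρ 0 = 0 := by
    simp only [hρ, hD0, hr, Nat.sub_self]
  have hls : ∀ k, k < n → l (k + 1) = l k ∨ l (k + 1) = l k + 1 := by
    intro k hk
    have h1 : rk M (U k) ≤ rk M (U (k + 1)) := rk_mono (by rw [hUs k hk]; exact subset_insert _ _)
    have h2 : rk M (U (k + 1)) ≤ rk M (U k) + 1 := by
      rw [hUs k hk]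
      exact hrins _ _
    simp only [hl]
    omega
  have hρs : ∀ k, k < n → ρ (k + 1) = ρ k ∨ ρ (k + 1) = ρ k + 1 := by
    intro k hk
    have h1 : rk M (D (k + 1)) ≤ rk M (D k) := rk_mono (by rw [hDs k hk]; exact subset_insert _ _)
    have h2 : rk M (D k) ≤ rk M (D (k + 1)) + 1 := by
      rw [hDs k hk]
      exact hrins _ _
    have h3 := hDr k
    simp only [hρ]
    omega
  have hQ := height_of_seq l hl0 hls
  have hP := height_of_seq ρ hρ0 hρs
  have hln : l n = r := by
    simp only [hl, hUn n le_rfl, hr]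
  have hρn : ρ n = r := by
    simp only [hρ, hDn n le_rfl, hrk0, Nat.sub_zero]
  have hUD : ∀ k, r ≤ rk M (U k) + rk M (D k) := by
    intro k
    rw [← hr]
    refine le_trans (rk_mono ?_) (rk_union_le _ _)
    intro x hx
    obtain ⟨i, hi⟩ := hsurj x hx
    rcases Nat.lt_or_ge (i : ℕ) k with h | h
    · exact Or.inl ⟨i, h, hi⟩
    · exact Or.inr ⟨i, h, hi⟩
  -- extend the comparison of heights to all `k`
  have hall : ∀ R S : Fin n → Bool, (∀ k ≤ n, height R k ≤ height S k) →
      ∀ k, height R k ≤ height S k := by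
    intro R S h k
    rcases Nat.le_total k n with h1 | h1
    · exact h k h1
    · rw [height_of_ge R h1, height_of_ge S h1]
      exact h n le_rfl
  have hcard : ∀ R : Fin n → Bool,
      {x | ∃ i, R i = true ∧ (e i : α) = x}.ncard = height R n := by
    intro R
    rw [ncard_image_fin]
    unfold height
    refine congrArg Finset.card ?_
    ext i
    simp
  refine ⟨fun i => decide (ρ (i + 1) = ρ i + 1), fun i => decide (l (i + 1) = l i + 1),
    ?_, ?_, ?_, ?_⟩
  · rw [hP n le_rfl, hρn]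
  · rw [hQ n le_rfl, hln]
  · apply hall
    intro k hk
    rw [hP k hk, hQ k hk]
    have := hUD k
    simp only [hρ, hl]
    omega
  · intro B
    constructor
    · intro hB
      have hBr : B.ncard = r := by
        rw [← hr, rk_eq_ncard_of_isBasis hB.isBasis_ground]
      have hBeq : B = {x | ∃ i, (fun i : Fin n => decide ((e i : α) ∈ B)) i = true ∧ (e i : α) = x} := by
        ext x
        constructor
        · intro hx
          obtain ⟨i, hi⟩ := hsurj x (hB.subset_ground hx)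
          exact ⟨i, by simp [hi, hx], hi⟩
        · rintro ⟨i, h1, rfl⟩
          simpa using h1
      have hRn : height (fun i : Fin n => decide ((e i : α) ∈ B)) n = r := by
        rw [← hcard, ← hBeq, hBr]
      have hRU : ∀ k, height (fun i : Fin n => decide ((e i : α) ∈ B)) k ≤ rk M (U k) := by
        intro k
        have h1 : (B ∩ U k).ncard ≤ rk M (U k) :=
          ncard_le_rk (hB.indep.subset inter_subset_left) inter_subset_right
        refine le_trans (le_of_eq ?_) h1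
        unfold height
        rw [← ncard_image_fin (M := M) e]
        congr 1
        ext x
        constructor
        · rintro ⟨i, ⟨h2, h3⟩, h4⟩
          subst h4
          exact ⟨by simpa using h3, ⟨i, h2, rfl⟩⟩
        · rintro ⟨h1, i, h2, h3⟩
          subst h3
          exact ⟨i, ⟨h2, by simpa using h1⟩, rfl⟩
      have hRD : ∀ k, k ≤ n → r ≤ height (fun i : Fin n => decide ((e i : α) ∈ B)) k + rk M (D k) := by
        intro k hk
        have h0 := height_between (fun i : Fin n => decide ((e i : α) ∈ B)) hk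
        have h1 : (B ∩ D k).ncard ≤ rk M (D k) :=
          ncard_le_rk (hB.indep.subset inter_subset_left) inter_subset_right
        have h2 : (Finset.univ.filter fun i : Fin n => (k ≤ (i : ℕ) ∧ (i : ℕ) < n) ∧
            (fun i : Fin n => decide ((e i : α) ∈ B)) i = true).card = (B ∩ D k).ncard := by
          rw [← ncard_image_fin (M := M) e]
          congr 1
          ext x
          constructor
          · rintro ⟨i, ⟨h2, h3⟩, h4⟩
            subst h4
            exact ⟨by simpa using h3, ⟨i, h2.1, rfl⟩⟩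
          · rintro ⟨h1, i, h2, h3⟩
            subst h3
            exact ⟨i, ⟨⟨h2, i.2⟩, by simpa using h1⟩, rfl⟩
        rw [hRn] at h0
        rw [h2] at h0
        omega
      refine ⟨fun i => decide ((e i : α) ∈ B), hRn, fun k => ⟨?_, ?_⟩, hBeq⟩
      · revert k
        apply hall
        intro k hk
        rw [hP k hk]
        have := hRD k hk
        have h3 : ρ k = r - rk M (D k) := rfl
        rw [h3]
        exact Nat.sub_le_iff_le_add.2 this
      · revert k
        apply hall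
        intro k hk
        rw [hQ k hk]
        exact hRU k
    · rintro ⟨R, hRr, hR, hB⟩
      have hBr : B.ncard = r := by
        rw [hB, hcard, hRr]
      have hBE : B ⊆ M.E := by
        rw [hB]
        rintro x ⟨i, -, rfl⟩
        exact (e i).2
      have hind : M.Indep B := by
        by_contra hcon
        obtain ⟨C, hCB, hC⟩ := (show M.Dep B from ⟨hcon, hBE⟩).exists_isCircuit_subset
        -- the first and the last index
        have hCi : ∀ x ∈ C, ∃ i, R i = true ∧ (e i : α) = x := by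
          intro x hx
          have := hCB hx
          rw [hB] at this
          exact this
        have hTne : (Finset.univ.filter fun i : Fin n => (e i : α) ∈ C).Nonempty := by
          obtain ⟨x, hx⟩ := hC.nonempty
          obtain ⟨i, -, hi⟩ := hCi x hx
          exact ⟨i, by simp [hi, hx]⟩
        obtain ⟨a, ha, hamax⟩ := Finset.exists_max_image _ (fun i : Fin n => (i : ℕ)) hTne
        obtain ⟨b, hb, hbmin⟩ := Finset.exists_min_image _ (fun i : Fin n => (i : ℕ)) hTne
        simp only [Finset.mem_filter, Finset.mem_univ, true_and] at ha hb hamax hbmin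
        have hmaxC : ∀ c ∈ C, f c ≤ f (e a) := by
          intro c hc
          obtain ⟨i, -, hi⟩ := hCi c hc
          subst hi
          exact hmono _ _ (hamax i hc)
        have hminC : ∀ c ∈ C, f (e b) ≤ f c := by
          intro c hc
          obtain ⟨i, -, hi⟩ := hCi c hc
          subst hi
          exact hmono _ _ (hbmin i hc)
        have hgood := hf C hC hC.subset_ground _ ha _ hb hmaxC hminC
        have h1 : U (a + 1) ⊆ {x | x ∈ M.E ∧ f x ≤ f (e a)} := by
          rintro x ⟨i, h2, rfl⟩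
          exact ⟨(e i).2, hmono _ _ (show i ≤ a by
            rw [Fin.le_def]
            omega)⟩
        have h2 : D b ⊆ {x | x ∈ M.E ∧ f (e b) ≤ f x} := by
          rintro x ⟨i, h2, rfl⟩
          exact ⟨(e i).2, hmono _ _ (show b ≤ i by
            rw [Fin.le_def]
            omega)⟩
        have h3 := rk_mono (M := M) h1
        have h4 := rk_mono (M := M) h2
        have h5 := rk_circuit hC
        have hab : (b : ℕ) ≤ a + 1 := by
          have := hamax b hb
          omega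
        have h6 := height_between R hab
        have h7 : C.ncard ≤ (Finset.univ.filter fun i : Fin n =>
            ((b : ℕ) ≤ (i : ℕ) ∧ (i : ℕ) < a + 1) ∧ R i = true).card := by
          rw [← ncard_image_fin (M := M) e]
          apply ncard_le_ncard
          · intro x hx
            obtain ⟨i, h8, h9⟩ := hCi x hx
            subst h9
            have h10 := hamax i hx
            have h11 := hbmin i hx
            exact ⟨i, ⟨⟨h11, by omega⟩, h8⟩, rfl⟩
          · apply fin_of_sub (M := M)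
            rintro x ⟨i, -, rfl⟩
            exact (e i).2
        have h8 := (hR (a + 1)).2
        have h9 := (hR b).1
        rw [hQ (a + 1) a.2] at h8
        rw [hP b b.2.le] at h9
        have h10 := hDr b
        have h11 : l (a + 1) = rk M (U (a + 1)) := rfl
        have h12 : ρ b = r - rk M (D b) := rfl
        rw [hr] at hgood
        omega
      obtain ⟨B', hB', hBB'⟩ := hind.exists_isBase_superset
      have : B = B' := by
        apply eq_of_subset_of_ncard_le hBB' _ (fin_of_sub hB'.subset_ground)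
        rw [hBr, ← hr, rk_eq_ncard_of_isBasis hB'.isBasis_ground]
      rw [this]
      exact hB'

/-- an order good on a finite matroid makes it a lattice path matroid -/
theorem isLatticePathMatroid_of_good {f : α → ℕ} (hf : Good M M.E f) : IsLatticePathMatroid M := by
  have hEfin : M.E.Finite := M.ground_finite
  have : Finite M.E := hEfin.to_subtype
  obtain ⟨r, hr⟩ : ∃ r, rk M M.E = r := ⟨_, rfl⟩
  have hrle : r ≤ M.E.ncard := by
    obtain ⟨B, hB⟩ := M.exists_isBasis M.E
    rw [← hr, rk_eq_ncard_of_isBasis hB]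
    exact ncard_le_ncard hB.subset hEfin
  obtain ⟨m, hm⟩ : ∃ m, M.E.ncard = m + r := ⟨M.E.ncard - r, by omega⟩
  have e0 : Fin (m + r) ≃ M.E := (Finite.equivFinOfCardEq (by
    rw [← hm]
    rfl)).symm
  have hmono := Tuple.monotone_sort (fun i => f (e0 i))
  obtain ⟨P, Q, hP, hQ, hPQ, hB⟩ := exists_paths hf ((Tuple.sort (fun i => f (e0 i))).trans e0)
    (fun i j hij => hmono hij) r hr
  exact ⟨m, r, P, Q, _, hP, hQ, hPQ, hB⟩

/-- the greedy path: the lowest path above `p` that takes the steps in `T` North -/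
def low (p : ℕ → ℕ) (T : ℕ → Bool) : ℕ → ℕ
  | 0 => 0
  | k + 1 => max (p (k + 1)) (low p T k + if T k = true then 1 else 0)

theorem low_inv (p : ℕ → ℕ) (T : ℕ → Bool) (hp0 : p 0 = 0) (k : ℕ) :
    ∃ j ≤ k, low p T k = p j + ((Finset.range k).filter fun i => j ≤ i ∧ T i = true).card := by
  induction k with
  | zero => exact ⟨0, le_rfl, by simp [low, hp0]⟩
  | succ k ih =>
    obtain ⟨j, hj, h⟩ := ih
    rcases le_total (low p T k + if T k = true then 1 else 0) (p (k + 1)) with h1 | h1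
    · refine ⟨k + 1, le_rfl, ?_⟩
      have : ((Finset.range (k + 1)).filter fun i => k + 1 ≤ i ∧ T i = true) = ∅ := by
        ext i
        simp only [Finset.mem_filter, Finset.mem_range, Finset.notMem_empty, iff_false]
        omega
      rw [low, max_eq_left h1, this, Finset.card_empty]
      rfl
    · refine ⟨j, by omega, ?_⟩
      rw [low, max_eq_right h1, h, Finset.range_add_one, Finset.filter_insert]
      by_cases h2 : T k = true
      · rw [if_pos h2, if_pos ⟨hj, h2⟩, Finset.card_insert_of_notMem (by simp)]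
        omega
      · rw [if_neg h2, if_neg (fun h3 => h2 h3.2)]
        omega

theorem low_ge (p : ℕ → ℕ) (T : ℕ → Bool) (hp0 : p 0 = 0) (k : ℕ) : p k ≤ low p T k := by
  cases k with
  | zero => rw [hp0]; exact Nat.zero_le _
  | succ k => rw [low]; exact le_max_left _ _

theorem good_of_isLatticePathMatroid (h : IsLatticePathMatroid M) :
    ∃ f : α → ℕ, InjOn f M.E ∧ Good M M.E f := by
  classical
  obtain ⟨m, r, P, Q, e, hP, hQ, hPQ, hB⟩ := h
  generalize m + r = n at P Q e hP hQ hPQ hB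
  -- the position of an element
  obtain ⟨f, hf⟩ : ∃ f : α → ℕ, ∀ i : Fin n, f (e i) = i := by
    refine ⟨fun x => if h : x ∈ M.E then ((e.symm ⟨x, h⟩ : Fin n) : ℕ) else 0, fun i => ?_⟩
    have h1 : ((e i : M.E) : α) ∈ M.E := (e i).2
    simp
  have hsurj : ∀ x ∈ M.E, ∃ i, (e i : α) = x := by
    intro x hx
    exact ⟨e.symm ⟨x, hx⟩, by simp⟩
  have hfinj : InjOn f M.E := by
    intro x hx y hy hxy
    obtain ⟨i, rfl⟩ := hsurj x hx
    obtain ⟨j, rfl⟩ := hsurj y hy
    rw [hf, hf] at hxy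
    rw [Fin.ext hxy]
  refine ⟨f, hfinj, ?_⟩
  have hinj : ∀ i j, (e i : α) = e j → i = j := fun i j h => e.injective (Subtype.ext h)
  have hcard : ∀ R : Fin n → Bool,
      {x | ∃ i, R i = true ∧ (e i : α) = x}.ncard = height R n := by
    intro R
    rw [ncard_image_fin]
    unfold height
    refine congrArg Finset.card ?_
    ext i
    simp
  -- the independent sets lie in paths
  have hind : ∀ I, M.Indep I → ∃ R : Fin n → Bool, height R n = r ∧
      (∀ k, height P k ≤ height R k ∧ height R k ≤ height Q k) ∧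
      I ⊆ {x | ∃ i, R i = true ∧ (e i : α) = x} := by
    intro I hI
    obtain ⟨B, hBase, hIB⟩ := hI.exists_isBase_superset
    obtain ⟨R, h1, h2, h3⟩ := (hB B).1 hBase
    exact ⟨R, h1, h2, h3 ▸ hIB⟩
  have hrE : r ≤ rk M M.E := by
    have h1 : M.IsBase {x | ∃ i, P i = true ∧ (e i : α) = x} :=
      (hB _).2 ⟨P, hP, fun k => ⟨le_rfl, hPQ k⟩, rfl⟩
    rw [← hP, ← hcard P]
    exact ncard_le_rk h1.indep h1.subset_ground
  intro C hC _ a ha b hb hmax hmin
  obtain ⟨ia, rfl⟩ := hsurj a (hC.subset_ground ha)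
  obtain ⟨ib, rfl⟩ := hsurj b (hC.subset_ground hb)
  have hcardle : ∀ (I : Set α) (R : Fin n → Bool) (j k : ℕ), j ≤ k →
      I ⊆ {x | ∃ i, R i = true ∧ (e i : α) = x} → (∀ x ∈ I, j ≤ f x ∧ f x < k) →
      I.ncard + height R j ≤ height R k := by
    intro I R j k hjk hI hjkI
    rw [← height_between R hjk]
    apply Nat.add_le_add_right
    rw [← ncard_image_fin (M := M) e]
    apply ncard_le_ncard
    · intro x hx
      obtain ⟨i, h1, h2⟩ := hI hx
      subst h2
      have := hjkI _ hx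
      rw [hf] at this
      exact ⟨i, ⟨this, h1⟩, rfl⟩
    · apply fin_of_sub (M := M)
      rintro x ⟨i, -, rfl⟩
      exact (e i).2
  have hba : (ib : ℕ) ≤ ia := by
    have := hmin _ ha
    rw [hf, hf] at this
    exact this
  have hA : rk M {x | x ∈ M.E ∧ f x ≤ f (e ia)} ≤ height Q (ia + 1) := by
    obtain ⟨I, hI⟩ := M.exists_isBasis {x | x ∈ M.E ∧ f x ≤ f (e ia)} (fun x hx => hx.1)
    obtain ⟨R, h1, h2, h3⟩ := hind I hI.indep
    rw [rk_eq_ncard_of_isBasis hI]
    have h4 := hcardle I R 0 (ia + 1) (Nat.zero_le _) h3 (fun x hx => ⟨Nat.zero_le _, by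
      have := (hI.subset hx).2
      rw [hf] at this
      omega⟩)
    have h5 := (h2 (ia + 1)).2
    omega
  have hD : rk M {x | x ∈ M.E ∧ f (e ib) ≤ f x} + height P ib ≤ r := by
    obtain ⟨I, hI⟩ := M.exists_isBasis {x | x ∈ M.E ∧ f (e ib) ≤ f x} (fun x hx => hx.1)
    obtain ⟨R, h1, h2, h3⟩ := hind I hI.indep
    rw [rk_eq_ncard_of_isBasis hI]
    have h4 := hcardle I R ib n ib.2.le h3 (fun x hx => ⟨by
      have := (hI.subset hx).2
      rw [hf] at this
      exact this, by
      obtain ⟨i, -, h6⟩ := h3 hx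
      rw [← h6, hf]
      exact i.2⟩)
    have h5 := (h2 ib).1
    omega
  have key : height Q (ia + 1) ≤ height P ib + rk M C := by
    by_contra hcon
    have hrC := rk_circuit hC
    have hCn : height P ib + C.ncard ≤ height Q (ia + 1) := by omega
    apply hC.not_indep
    -- the indicator of `C`
    set T : ℕ → Bool := fun i => decide (∃ h : i < n, (e ⟨i, h⟩ : α) ∈ C) with hT
    have hTn : ∀ i, T i = true → i < n := by
      intro i hi
      simp only [hT, decide_eq_true_eq] at hi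
      exact hi.1
    have hTC : ∀ i : Fin n, T i = true ↔ (e i : α) ∈ C := by
      intro i
      simp only [hT, decide_eq_true_eq]
      constructor
      · rintro ⟨_, h⟩
        exact h
      · intro h
        exact ⟨i.2, h⟩
    have hcount : ∀ j k : ℕ, ((Finset.range k).filter fun i => j ≤ i ∧ T i = true).card
        = {x | x ∈ C ∧ j ≤ f x ∧ f x < k}.ncard := by
      intro j k
      have hinjf : InjOn f {x | x ∈ C ∧ j ≤ f x ∧ f x < k} :=
        hfinj.mono (fun x hx => hC.subset_ground hx.1)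
      rw [← hinjf.ncard_image, ← ncard_coe_finset]
      congr 1
      ext i
      simp only [Finset.coe_filter, Finset.mem_range, mem_ofPred_eq, mem_image]
      constructor
      · rintro ⟨h1, h2, h3⟩
        have h4 := hTn i h3
        refine ⟨e ⟨i, h4⟩, ⟨(hTC ⟨i, h4⟩).1 h3, ?_, ?_⟩, ?_⟩
        · rw [hf]
          exact h2
        · rw [hf]
          exact h1
        · rw [hf]
      · rintro ⟨x, ⟨h1, h2, h3⟩, h4⟩
        obtain ⟨i', rfl⟩ := hsurj x (hC.subset_ground h1)
        rw [hf] at h2 h3 h4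
        subst h4
        exact ⟨h3, h2, (hTC i').2 h1⟩
    set x : ℕ → ℕ := low (height P) T with hx
    have hx0 : x 0 = 0 := rfl
    have hxs : ∀ k, x (k + 1) = max (height P (k + 1)) (x k + if T k = true then 1 else 0) :=
      fun k => rfl
    have hxP : ∀ k, height P k ≤ x k := low_ge _ _ (height_zero P)
    have hPs : ∀ k, height P (k + 1) ≤ height P k + 1 := by
      intro k
      by_cases hk : k < n
      · have := height_succ P ⟨k, hk⟩
        simp only at this
        rw [this]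
        split_ifs <;> omega
      · rw [height_of_ge P (show n ≤ k + 1 by omega), height_of_ge P (show n ≤ k by omega)]
        omega
    have hxstep : ∀ k, k < n → x (k + 1) = x k ∨ x (k + 1) = x k + 1 := by
      intro k _
      have h1 := hxs k
      have h2 := hxP k
      have h3 := hPs k
      split_ifs at h1 <;> omega
    have hxQ : ∀ k, x k ≤ height Q k := by
      intro k
      obtain ⟨j, hjk, hj⟩ := low_inv (height P) T (height_zero P) k
      rw [← hx] at hj
      rw [hj, hcount]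
      by_cases hcase : j ≤ ib ∧ ia + 1 ≤ k
      · have h1 : {x | x ∈ C ∧ j ≤ f x ∧ f x < k}.ncard ≤ C.ncard :=
          ncard_le_ncard (fun x hx => hx.1) (fin_of_sub hC.subset_ground)
        have h2 := height_mono P hcase.1
        have h3 := height_mono Q hcase.2
        omega
      · have h1 : M.Indep {x | x ∈ C ∧ j ≤ f x ∧ f x < k} := by
          apply hC.ssubset_indep
          refine ⟨fun x hx => hx.1, fun hcon2 => hcase ?_⟩
          have h2 := (hcon2 hb).2.1
          have h3 := (hcon2 ha).2.2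
          rw [hf] at h2 h3
          exact ⟨h2, h3⟩
        obtain ⟨R, h2, h3, h4⟩ := hind _ h1
        have h5 := hcardle _ R j k hjk h4 (fun x hx => hx.2)
        have h6 := (h3 k).2
        have h7 := (h3 j).1
        omega
    have hheight := height_of_seq x hx0 hxstep
    have hxn : x n = r := by
      apply le_antisymm
      · rw [← hQ]
        exact hxQ n
      · rw [← hP]
        exact hxP n
    have hbase : M.IsBase {y | ∃ i, (fun i : Fin n => decide (x (i + 1) = x i + 1)) i = true ∧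
        (e i : α) = y} := by
      apply (hB _).2
      refine ⟨_, ?_, ?_, rfl⟩
      · rw [hheight n le_rfl, hxn]
      · intro k
        rcases Nat.le_total k n with hk | hk
        · rw [hheight k hk]
          exact ⟨hxP k, hxQ k⟩
        · rw [height_of_ge P hk, height_of_ge Q hk,
            height_of_ge (fun i : Fin n => decide (x (i + 1) = x i + 1)) hk, hheight n le_rfl]
          exact ⟨hxP n, hxQ n⟩
    refine hbase.indep.subset ?_
    intro y hy
    obtain ⟨i, rfl⟩ := hsurj y (hC.subset_ground hy)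
    refine ⟨i, ?_, rfl⟩
    have h1 := hxs i
    have h2 := hxP i
    have h3 := hPs i
    rw [if_pos ((hTC i).2 hy)] at h1
    simp only [decide_eq_true_eq]
    omega
  omega

end Core

/-! ## The sentence -/

section Logic

variable {M : Matroid α}


/-! ### derived formulas -/

/-- `X x` is empty -/
def fEmp (x t : ℕ) : Formula := .all t (.sub x t)
def REmp (M : Matroid α) (X : Set α) : Prop := ∀ T ⊆ M.E, X ⊆ T

theorem sat_emp {v : ℕ → Set α} {x t : ℕ} (h : x ≠ t) : Sat M v (fEmp x t) ↔ REmp M (v x) := by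
  simp [fEmp, REmp, Sat, h]

/-- `X x` is a circuit -/
def fCirc (x t : ℕ) : Formula :=
  .conj (.neg (.ind x)) (.all t (.imp (.sub t x) (.imp (.neg (.sub x t)) (.ind t))))
def RCirc (M : Matroid α) (X : Set α) : Prop :=
  ¬ M.Indep X ∧ ∀ T ⊆ M.E, T ⊆ X → ¬ X ⊆ T → M.Indep T

theorem sat_circ {v : ℕ → Set α} {x t : ℕ} (h : x ≠ t) : Sat M v (fCirc x t) ↔ RCirc M (v x) := by
  simp [fCirc, RCirc, Sat, h]

/-- `X x` meets `X y` -/
def fMeets (x y : ℕ) : Formula := .ex 14 (.conj (.sub 14 x) (.conj (.sub 14 y) (.neg (fEmp 14 15))))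
def RMeets (M : Matroid α) (X Y : Set α) : Prop := ∃ S ⊆ M.E, S ⊆ X ∧ S ⊆ Y ∧ ¬ REmp M S

theorem sat_meets {v : ℕ → Set α} {x y : ℕ} (h1 : x < 14) (h2 : y < 14) :
    Sat M v (fMeets x y) ↔ RMeets M (v x) (v y) := by
  simp [fMeets, RMeets, Sat, sat_emp, h1.ne, h2.ne]

/-- `X x` is independent, lies in `X y`, and is maximal with this property -/
def fBasis (x y : ℕ) : Formula :=
  .conj (.sub x y) (.conj (.ind x)
    (.all 15 (.imp (.ind 15) (.imp (.sub 15 y) (.imp (.sub x 15) (.sub 15 x))))))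
def RBasis (M : Matroid α) (X Y : Set α) : Prop :=
  X ⊆ Y ∧ M.Indep X ∧ ∀ T ⊆ M.E, M.Indep T → T ⊆ Y → X ⊆ T → T ⊆ X

theorem sat_basis {v : ℕ → Set α} {x y : ℕ} (h1 : x < 14) (h2 : y < 14) :
    Sat M v (fBasis x y) ↔ RBasis M (v x) (v y) := by
  simp [fBasis, RBasis, Sat, (show x ≠ 15 by omega), (show y ≠ 15 by omega)]

/-- `X x` lies in the union of `X y` and `X z` -/
def fCover (x y z : ℕ) : Formula :=
  .all 13 (.imp (.sub 13 x) (.imp (.neg (fEmp 13 15)) (.disj (fMeets 13 y) (fMeets 13 z))))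
def RCover (M : Matroid α) (X Y Z : Set α) : Prop :=
  ∀ T ⊆ M.E, T ⊆ X → ¬ REmp M T → RMeets M T Y ∨ RMeets M T Z

theorem sat_cover {v : ℕ → Set α} {x y z : ℕ} (h1 : x < 13) (h2 : y < 13) (h3 : z < 13) :
    Sat M v (fCover x y z) ↔ RCover M (v x) (v y) (v z) := by
  simp [fCover, RCover, Sat, sat_emp, sat_meets, (show y < 14 by omega), (show z < 14 by omega),
    h1.ne, h2.ne, h3.ne]

/-- the intersection of `X x` and `X y` lies in `X z` -/
def fInter (x y z : ℕ) : Formula :=
  .all 13 (.imp (.sub 13 x) (.imp (.sub 13 y) (.sub 13 z)))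
def RInter (M : Matroid α) (X Y Z : Set α) : Prop := ∀ T ⊆ M.E, T ⊆ X → T ⊆ Y → T ⊆ Z

theorem sat_inter {v : ℕ → Set α} {x y z : ℕ} (h1 : x < 13) (h2 : y < 13) (h3 : z < 13) :
    Sat M v (fInter x y z) ↔ RInter M (v x) (v y) (v z) := by
  simp [fInter, RInter, Sat, h1.ne, h2.ne, h3.ne]

/-- `X x` is connected -/
def fConn (x : ℕ) : Formula :=
  .all 11 (.imp (.sub 11 x) (.imp (.neg (fEmp 11 15)) (.imp (.neg (.sub x 11))
    (.ex 12 (.conj (fCirc 12 15) (.conj (.sub 12 x) (.conj (fMeets 12 11) (.neg (.sub 12 11)))))))))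
def RConn (M : Matroid α) (X : Set α) : Prop :=
  ∀ S ⊆ M.E, S ⊆ X → ¬ REmp M S → ¬ X ⊆ S → ∃ C ⊆ M.E, RCirc M C ∧ C ⊆ X ∧ RMeets M C S ∧ ¬ C ⊆ S

theorem sat_conn {v : ℕ → Set α} {x : ℕ} (h1 : x < 11) :
    Sat M v (fConn x) ↔ RConn M (v x) := by
  simp [fConn, RConn, Sat, sat_emp, sat_circ, sat_meets, h1.ne, (show x ≠ 12 by omega)]

/-- no circuit leaves `X x` -/
def fSep (x : ℕ) : Formula :=
  .all 12 (.imp (fCirc 12 15) (.imp (fMeets 12 x) (.sub 12 x)))
def RSep (M : Matroid α) (X : Set α) : Prop :=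
  ∀ C ⊆ M.E, RCirc M C → RMeets M C X → C ⊆ X

theorem sat_sep {v : ℕ → Set α} {x : ℕ} (h1 : x < 12) :
    Sat M v (fSep x) ↔ RSep M (v x) := by
  simp [fSep, RSep, Sat, sat_circ, sat_meets, h1.ne, (show x < 14 by omega)]

/-- `X y` is closed relative to `X x` -/
def fFlat (x y : ℕ) : Formula :=
  .all 9 (.all 10 (.imp (.sub 9 x) (.imp (.sub y 9) (.imp (fBasis 10 y) (.imp (fBasis 10 9)
    (.sub 9 y))))))
def RFlat (M : Matroid α) (X Y : Set α) : Prop :=
  ∀ T ⊆ M.E, ∀ I ⊆ M.E, T ⊆ X → Y ⊆ T → RBasis M I Y → RBasis M I T → T ⊆ Y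

theorem sat_flat {v : ℕ → Set α} {x y : ℕ} (h1 : x < 9) (h2 : y < 9) :
    Sat M v (fFlat x y) ↔ RFlat M (v x) (v y) := by
  simp [fFlat, RFlat, Sat, sat_basis, h1.ne, h2.ne, (show x ≠ 10 by omega), (show y ≠ 10 by omega),
    (show y < 14 by omega)]

/-- `X z` is in the family of `X y` in `X x` -/
def fFam (x y z : ℕ) : Formula :=
  .conj (.sub z x) (.conj (.sub y z) (.conj (fFlat x z) (fConn z)))
def RFam (M : Matroid α) (X Y Z : Set α) : Prop :=
  Z ⊆ X ∧ Y ⊆ Z ∧ RFlat M X Z ∧ RConn M Z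

theorem sat_fam {v : ℕ → Set α} {x y z : ℕ} (h1 : x < 9) (h3 : z < 9) :
    Sat M v (fFam x y z) ↔ RFam M (v x) (v y) (v z) := by
  simp [fFam, RFam, Sat, sat_flat, sat_conn, h1, h3, (show z < 11 by omega)]

/-- the family of `X y` in `X 0` is a chain -/
def fChain (y : ℕ) : Formula :=
  .all 3 (.all 4 (.imp (fFam 0 y 3) (.imp (fFam 0 y 4) (.disj (.sub 3 4) (.sub 4 3)))))
def RChain (M : Matroid α) (K A : Set α) : Prop :=
  ∀ F ⊆ M.E, ∀ G ⊆ M.E, RFam M K A F → RFam M K A G → F ⊆ G ∨ G ⊆ F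

theorem sat_chain {v : ℕ → Set α} {y : ℕ} (h : y < 3) :
    Sat M v (fChain y) ↔ RChain M (v 0) (v y) := by
  simp [fChain, RChain, Sat, sat_fam, h.ne, (show y ≠ 4 by omega)]

/-- members of the families of `X 1` and of `X 2` in `X 0` that meet cover `X 0` -/
def fTwo : Formula :=
  .all 3 (.all 4 (.imp (fFam 0 1 3) (.imp (fFam 0 2 4) (.imp (fMeets 3 4) (fCover 0 3 4)))))
def RTwo (M : Matroid α) (K A Z : Set α) : Prop :=
  ∀ F ⊆ M.E, ∀ G ⊆ M.E, RFam M K A F → RFam M K Z G → RMeets M F G → RCover M K F G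

theorem sat_two {v : ℕ → Set α} :
    Sat M v fTwo ↔ RTwo M (v 0) (v 1) (v 2) := by
  simp [fTwo, RTwo, Sat, sat_fam, sat_meets, sat_cover]

/-- the condition on the circuits in `X 0` -/
def fThree : Formula :=
  .all 5 (.imp (fCirc 5 15) (.imp (.sub 5 0) (.ex 3 (.ex 4 (.conj (fFam 0 1 3) (.conj (fFam 0 2 4)
    (.conj (.sub 5 3) (.conj (.sub 5 4) (.ex 6 (.ex 7 (.ex 8 (.conj (fBasis 6 3) (.conj (fBasis 7 4)
      (.conj (.ind 8) (.conj (.sub 6 8) (.conj (.sub 7 8) (fInter 6 7 5)))))))))))))))))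
def RThree (M : Matroid α) (K A Z : Set α) : Prop :=
  ∀ C ⊆ M.E, RCirc M C → C ⊆ K → ∃ F ⊆ M.E, ∃ G ⊆ M.E, RFam M K A F ∧ RFam M K Z G ∧ C ⊆ F ∧ C ⊆ G ∧
    ∃ I ⊆ M.E, ∃ J ⊆ M.E, ∃ H ⊆ M.E, RBasis M I F ∧ RBasis M J G ∧ M.Indep H ∧ I ⊆ H ∧ J ⊆ H ∧
      RInter M I J C

theorem sat_three {v : ℕ → Set α} :
    Sat M v fThree ↔ RThree M (v 0) (v 1) (v 2) := by
  simp [fThree, RThree, Sat, sat_fam, sat_circ, sat_basis, sat_inter]

/-- the sentence -/
def sentence : Formula :=
  .all 0 (.imp (.neg (fEmp 0 15)) (.imp (fSep 0) (.imp (fConn 0)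
    (.ex 1 (.ex 2 (.conj (fChain 1) (.conj (fChain 2) (.conj fTwo fThree))))))))

theorem sat_sentence {v : ℕ → Set α} :
    Sat M v sentence ↔ ∀ K ⊆ M.E, ¬ REmp M K → RSep M K → RConn M K →
      ∃ A ⊆ M.E, ∃ Z ⊆ M.E, RChain M K A ∧ RChain M K Z ∧ RTwo M K A Z ∧ RThree M K A Z := by
  simp [sentence, Sat, sat_emp, sat_sep, sat_conn, sat_chain, sat_two, sat_three]

theorem isSentence_sentence : sentence.IsSentence := by
  unfold Formula.IsSentence
  decide

/-! ### translation -/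

variable [M.Finite]

theorem not_remp_iff {X : Set α} : ¬ REmp M X ↔ X.Nonempty := by
  unfold REmp
  constructor
  · intro h
    by_contra hX
    rw [not_nonempty_iff_eq_empty] at hX
    subst hX
    exact h fun T _ => empty_subset T
  · rintro ⟨x, hx⟩ h
    exact h ∅ (empty_subset _) hx

theorem rcirc_iff {C : Set α} (hC : C ⊆ M.E) : RCirc M C ↔ M.IsCircuit C := by
  unfold RCirc
  rw [Matroid.isCircuit_iff_forall_ssubset]
  constructor
  · rintro ⟨h1, h2⟩
    exact ⟨⟨h1, hC⟩, fun I hI => h2 I (hI.subset.trans hC) hI.subset hI.not_subset⟩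
  · rintro ⟨h1, h2⟩
    exact ⟨h1.not_indep, fun T _ hT hT' => h2 ⟨hT, hT'⟩⟩

theorem rmeets_iff {X Y : Set α} (hX : X ⊆ M.E) : RMeets M X Y ↔ (X ∩ Y).Nonempty := by
  unfold RMeets
  constructor
  · rintro ⟨S, -, h1, h2, h3⟩
    exact (not_remp_iff.1 h3).mono (subset_inter h1 h2)
  · intro h
    exact ⟨X ∩ Y, inter_subset_left.trans hX, inter_subset_left, inter_subset_right,
      not_remp_iff.2 h⟩

theorem rbasis_iff {I X : Set α} (hX : X ⊆ M.E) : RBasis M I X ↔ M.IsBasis I X := by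
  unfold RBasis
  rw [Matroid.isBasis_iff hX]
  constructor
  · rintro ⟨h1, h2, h3⟩
    exact ⟨h2, h1, fun J hJ hIJ hJX => Subset.antisymm hIJ (h3 J hJ.subset_ground hJ hJX hIJ)⟩
  · rintro ⟨h1, h2, h3⟩
    exact ⟨h2, h1, fun J _ hJ hJX hIJ => (h3 J hJ hIJ hJX).symm.subset⟩

theorem rcover_iff {X Y Z : Set α} (hX : X ⊆ M.E) : RCover M X Y Z ↔ X ⊆ Y ∪ Z := by
  unfold RCover
  constructor
  · intro h x hx
    have h1 : ({x} : Set α) ⊆ M.E := singleton_subset_iff.2 (hX hx)
    have h2 := h {x} h1 (singleton_subset_iff.2 hx) (not_remp_iff.2 (singleton_nonempty x))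
    rw [rmeets_iff h1, rmeets_iff h1, singleton_inter_nonempty, singleton_inter_nonempty] at h2
    exact h2
  · intro h T hT hTX hne
    obtain ⟨x, hx⟩ := not_remp_iff.1 hne
    rw [rmeets_iff hT, rmeets_iff hT]
    rcases h (hTX hx) with h1 | h1
    · exact Or.inl ⟨x, hx, h1⟩
    · exact Or.inr ⟨x, hx, h1⟩

theorem rinter_iff {X Y Z : Set α} (hX : X ⊆ M.E) : RInter M X Y Z ↔ X ∩ Y ⊆ Z := by
  unfold RInter
  constructor
  · intro h
    exact h (X ∩ Y) (inter_subset_left.trans hX) inter_subset_left inter_subset_right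
  · intro h T _ h1 h2
    exact (subset_inter h1 h2).trans h

theorem rconn_iff {X : Set α} (hX : X ⊆ M.E) : RConn M X ↔ Conn M X := by
  unfold RConn Conn
  constructor
  · intro h S hS hSX hne hns
    obtain ⟨C, hCE, h1, h2, h3, h4⟩ := h S hS hSX (not_remp_iff.2 hne) hns
    exact ⟨C, (rcirc_iff hCE).1 h1, h2, (rmeets_iff hCE).1 h3, h4⟩
  · intro h S hS hSX hne hns
    obtain ⟨C, h1, h2, h3, h4⟩ := h S hS hSX (not_remp_iff.1 hne) hns
    have hCE := h1.subset_ground
    exact ⟨C, hCE, (rcirc_iff hCE).2 h1, h2, (rmeets_iff hCE).2 h3, h4⟩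

theorem rsep_iff {X : Set α} : RSep M X ↔ Sep M X := by
  unfold RSep Sep
  constructor
  · intro h C hC hne
    have hCE := hC.subset_ground
    exact h C hCE ((rcirc_iff hCE).2 hC) ((rmeets_iff hCE).2 hne)
  · intro h C hCE hC hne
    exact h C ((rcirc_iff hCE).1 hC) ((rmeets_iff hCE).1 hne)

theorem rflat_iff {X Y : Set α} (hY : Y ⊆ M.E) : RFlat M X Y ↔ FlatIn M X Y := by
  unfold RFlat FlatIn
  constructor
  · intro h T hT I hI h1 h2 h3 h4
    exact h T hT I hI h1 h2 ((rbasis_iff hY).2 h3) ((rbasis_iff hT).2 h4)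
  · intro h T hT I hI h1 h2 h3 h4
    exact h T hT I hI h1 h2 ((rbasis_iff hY).1 h3) ((rbasis_iff hT).1 h4)

theorem rfam_iff {X Y Z : Set α} (hZ : Z ⊆ M.E) : RFam M X Y Z ↔ Fam M X Y Z := by
  unfold RFam Fam
  rw [rflat_iff hZ, rconn_iff hZ]

theorem psi_iff {K : Set α} (hK : K ⊆ M.E) :
    (∃ A ⊆ M.E, ∃ Z ⊆ M.E, RChain M K A ∧ RChain M K Z ∧ RTwo M K A Z ∧ RThree M K A Z) ↔
      Psi M K := by
  have e1 : ∀ A : Set α, RChain M K A ↔
      ∀ F ⊆ M.E, ∀ G ⊆ M.E, Fam M K A F → Fam M K A G → F ⊆ G ∨ G ⊆ F := by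
    intro A
    unfold RChain
    constructor
    · intro h F hF G hG h1 h2
      exact h F hF G hG ((rfam_iff hF).2 h1) ((rfam_iff hG).2 h2)
    · intro h F hF G hG h1 h2
      exact h F hF G hG ((rfam_iff hF).1 h1) ((rfam_iff hG).1 h2)
  have e2 : ∀ A Z : Set α, RTwo M K A Z ↔
      ∀ F ⊆ M.E, ∀ G ⊆ M.E, Fam M K A F → Fam M K Z G → (F ∩ G).Nonempty → K ⊆ F ∪ G := by
    intro A Z
    unfold RTwo
    constructor
    · intro h F hF G hG h1 h2 h3
      exact (rcover_iff hK).1 (h F hF G hG ((rfam_iff hF).2 h1) ((rfam_iff hG).2 h2)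
        ((rmeets_iff hF).2 h3))
    · intro h F hF G hG h1 h2 h3
      exact (rcover_iff hK).2 (h F hF G hG ((rfam_iff hF).1 h1) ((rfam_iff hG).1 h2)
        ((rmeets_iff hF).1 h3))
  have e3 : ∀ A Z : Set α, RThree M K A Z ↔
      ∀ C, M.IsCircuit C → C ⊆ K → ∃ F ⊆ M.E, ∃ G ⊆ M.E, Fam M K A F ∧ Fam M K Z G ∧ C ⊆ F ∧ C ⊆ G ∧
      ∃ I ⊆ M.E, ∃ J ⊆ M.E, ∃ H ⊆ M.E, M.IsBasis I F ∧ M.IsBasis J G ∧ M.Indep H ∧ I ⊆ H ∧ J ⊆ H ∧
        I ∩ J ⊆ C := by
    intro A Z
    unfold RThree
    constructor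
    · intro h C hC hCK
      have hCE := hC.subset_ground
      obtain ⟨F, hF, G, hG, h1, h2, h3, h4, I, hI, J, hJ, H, hH, h5, h6, h7, h8, h9, h10⟩ :=
        h C hCE ((rcirc_iff hCE).2 hC) hCK
      exact ⟨F, hF, G, hG, (rfam_iff hF).1 h1, (rfam_iff hG).1 h2, h3, h4, I, hI, J, hJ, H, hH,
        (rbasis_iff hF).1 h5, (rbasis_iff hG).1 h6, h7, h8, h9, (rinter_iff hI).1 h10⟩
    · intro h C hCE hC hCK
      obtain ⟨F, hF, G, hG, h1, h2, h3, h4, I, hI, J, hJ, H, hH, h5, h6, h7, h8, h9, h10⟩ :=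
        h C ((rcirc_iff hCE).1 hC) hCK
      exact ⟨F, hF, G, hG, (rfam_iff hF).2 h1, (rfam_iff hG).2 h2, h3, h4, I, hI, J, hJ, H, hH,
        (rbasis_iff hF).2 h5, (rbasis_iff hG).2 h6, h7, h8, h9, (rinter_iff hI).2 h10⟩
  unfold Psi
  simp only [e1, e2, e3]

theorem sentence_iff {v : ℕ → Set α} : Sat M v sentence ↔ IsLatticePathMatroid M := by
  rw [sat_sentence]
  constructor
  · intro h
    have h1 : ∀ K ⊆ M.E, K.Nonempty → Sep M K → Conn M K → ∃ f, Good M K f := by
      intro K hK hne hs hc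
      exact good_of_psi ((psi_iff hK).1 (h K hK (not_remp_iff.2 hne) (rsep_iff.2 hs)
        ((rconn_iff hK).2 hc)))
    have hE : Sep M M.E := fun C hC _ => hC.subset_ground
    obtain ⟨f, hf⟩ := good_of_components h1 _ M.E rfl subset_rfl hE
    exact isLatticePathMatroid_of_good hf
  · intro h K hK hne hs hc
    obtain ⟨f, hinj, hf⟩ := good_of_isLatticePathMatroid h
    have hs' := rsep_iff.1 hs
    exact (psi_iff hK).2 (psi_of_good (good_restrict hf hs' hK) (hinj.mono hK) hK
      (not_remp_iff.1 hne) ((rconn_iff hK).1 hc))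

end Logic

end Pool.Agent.K4H81.LPM
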